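import Pool.Agent.Lib.MP_72b84e_nt.Two.Defs

/-!
MP_72b84e_nt, board TWO, row OMG (helper73): the coefficients of the multiples of
`(1 + T) ^ (2 ^ n) - 1`.
-/

open Finset

namespace Pool.Agent.Lib.MP_72b84e_nt.Two

noncomputable section

/-- the coefficient of `T ^ i` is divisible by `2 ^ (k - i)` -/
def Ak (k : ℕ) (h : Lam) : Prop := ∀ i, i ≤ k → (2 : ℤ_[2]) ^ (k - i) ∣ PowerSeries.coeff i h

theorem Ak.mul {k : ℕ} {h : Lam} (hh : Ak k h) (f : Lam) : Ak k (h * f) := by
  intro i hi
  rw [PowerSeries.coeff_mul]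
  refine Finset.dvd_sum fun x hx => ?_
  have hx' := Finset.HasAntidiagonal.mem_antidiagonal.1 hx
  refine Dvd.dvd.mul_right ((pow_dvd_pow _ ?_).trans (hh x.1 (by omega))) _
  omega

theorem Ak.add {k : ℕ} {h g : Lam} (hh : Ak k h) (hg : Ak k g) : Ak k (h + g) := by
  intro i hi
  rw [map_add]
  exact dvd_add (hh i hi) (hg i hi)

theorem Ak.X {k : ℕ} {h : Lam} (hh : Ak k h) : Ak (k + 1) (h * PowerSeries.X) := by
  intro i hi
  rcases i with _ | i
  · rw [PowerSeries.coeff_zero_mul_X]
    exact dvd_zero _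
  · rw [PowerSeries.coeff_succ_mul_X]
    have h1 : k + 1 - (i + 1) = k - i := by omega
    rw [h1]
    exact hh i (by omega)

theorem Ak.two {k : ℕ} {h : Lam} (hh : Ak k h) : Ak (k + 1) (h * 2) := by
  intro i hi
  have h1 : PowerSeries.coeff i (h * 2) = PowerSeries.coeff i h * 2 := by
    have : (2 : Lam) = PowerSeries.C (2 : ℤ_[2]) := by
      rw [map_ofNat]
    rw [this, PowerSeries.coeff_mul_C]
  rw [h1]
  rcases Nat.lt_or_ge k i with h2 | h2
  · have h3 : k + 1 - i = 0 := by omega
    rw [h3, pow_zero]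
    exact one_dvd _
  · have h3 : k + 1 - i = (k - i) + 1 := by omega
    rw [h3, pow_succ]
    exact mul_dvd_mul (hh i h2) dvd_rfl

theorem om_zero : om 0 = PowerSeries.X := by
  unfold om pw
  rw [pow_zero, pow_one]
  ring

theorem om_step (n : ℕ) : om (n + 1) = om n * (om n + 2) := by
  unfold om pw
  have h : (2 : ℕ) ^ (n + 1) = 2 ^ n * 2 := pow_succ 2 n
  rw [h, pow_mul]
  ring

theorem om_X (n : ℕ) : ∃ w : Lam, om n = PowerSeries.X * w := by
  induction n with
  | zero => exact ⟨1, by rw [om_zero, mul_one]⟩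
  | succ n ih =>
    obtain ⟨w, hw⟩ := ih
    refine ⟨w * (om n + 2), ?_⟩
    rw [om_step, ← mul_assoc, ← hw]

theorem om_dvd {n k : ℕ} (h : n ≤ k) : om n ∣ om k := by
  induction h with
  | refl => exact dvd_rfl
  | step _ ih =>
    rw [om_step]
    exact ih.mul_right _

theorem Ak_om (n : ℕ) : Ak (n + 1) (om n) := by
  induction n with
  | zero =>
    have h0 : Ak 0 (1 : Lam) := by
      intro i hi
      obtain rfl : i = 0 := by omega
      rw [pow_zero]
      exact one_dvd _
    have h1 := h0.X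
    rwa [one_mul, ← om_zero] at h1
  | succ n ih =>
    obtain ⟨w, hw⟩ := om_X n
    have e : om (n + 1) = om n * PowerSeries.X * w + om n * 2 := by
      rw [om_step, mul_add]
      congr 1
      rw [mul_assoc, ← hw]
    rw [e]
    exact (ih.X.mul w).add ih.two

theorem omg : OmgStatement := by
  intro n i f hi
  refine (pow_dvd_pow _ ?_).trans ((Ak_om n).mul f i (by omega))
  omega

/-- divisibility of the first coefficients -/
theorem om_coeff {n i r k : ℕ} (f : Lam) (hi : i ≤ r) (hn : r + k ≤ n) :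
    (2 : ℤ_[2]) ^ k ∣ PowerSeries.coeff i (om n * f) :=
  (pow_dvd_pow _ (by omega)).trans (omg n i f (by omega))

end

end Pool.Agent.Lib.MP_72b84e_nt.Two
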