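import Pool.Agent.Lib.MP_72b84e_nt.Two.Nrm
import Pool.Agent.Lib.MP_72b84e_nt.Two.Omg

/-!
MP_72b84e_nt, board TWO (helper73). The constant term of the `p`-adic `L`-function of a quadratic
twist, for all primes `p`.
-/

open Finset

namespace Pool.Agent.Lib.MP_72b84e_nt.Two

noncomputable section

section

variable (p : ℕ) [Fact p.Prime]

/-- The logarithm of `a`, prime to `p`, to the base `1 + p`: `a` is `(1 + p) ^ l` times a root of
unity modulo `p ^ (n + 1)`; it matters modulo `p ^ n`. -/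
def dlogp (n a : ℕ) : ℕ :=
  sInf {l : ℕ | (a : ZMod (p ^ (n + 1))) ^ (p - 1) = ((1 + p) ^ l) ^ (p - 1)}

/-- The `p`-stabilised symbol: `α ms(x) - ms(p x)`. -/
def stabp (ms : ℚ → ℤ) (α : ℤ_[p]) (x : ℚ) : ℤ_[p] := α * (ms x : ℤ_[p]) - (ms (p * x) : ℤ_[p])

/-- The `p`-adic element of level `n` for the quadratic character `(· / D)`: the sum of
`(a / D) (α ms(a / M) - ms(p a / M)) (1 + T) ^ (log a)` over the `a` modulo `M = p ^ (n + 1) D`
prime to `M`. -/
def eltp (ms : ℚ → ℤ) (α : ℤ_[p]) (D n : ℕ) : PowerSeries ℤ_[p] :=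
  ∑ a ∈ (Finset.range (p ^ (n + 1) * D)).filter (fun a => a.Coprime (p ^ (n + 1) * D)),
    ((jacobiSym a D : ℤ) : PowerSeries ℤ_[p]) *
      PowerSeries.C (stabp p ms α ((a : ℚ) / ((p ^ (n + 1) * D : ℕ) : ℚ))) *
      (1 + PowerSeries.X) ^ dlogp p n a

/-- `L` is the `p`-adic `L`-function (Mazur, Tate, Teitelbaum) for the character `(· / D)`, `p`
odd: the power series whose class modulo `(1 + T) ^ (p ^ n) - 1` is `α ^ (- n - 2)` times the
element of level `n`, for all `n`. -/
def IsLp (ms : ℚ → ℤ) (α : ℤ_[p]) (D : ℕ) (L : PowerSeries ℤ_[p]) : Prop :=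
  ∀ n : ℕ, ((1 + PowerSeries.X) ^ p ^ n - 1 : PowerSeries ℤ_[p]) ∣
    PowerSeries.C (α ^ (n + 2)) * L - eltp p ms α D n

/-- The sum of `(b / D) ms(b / D)`. -/
def SD (ms : ℚ → ℤ) (D : ℕ) : ℤ := ∑ b ∈ range D, jacobiSym b D * ms ((b : ℚ) / D)

variable {p}

/-- THE CONSTANT TERM at level `p D` -/
theorem const_sum {ms : ℚ → ℤ} (h1 : ∀ x, ms (x + 1) = ms x) {a : ℤ} (hH : Hecke ms p a)
    {D : ℕ} (hD : 0 < D) (hpD : ¬ p ∣ D) {α : ℤ_[p]} (hα : α ^ 2 - a * α + p = 0) :
    ∑ b ∈ (range (p * D)).filter (fun b => b.Coprime (p * D)),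
      ((jacobiSym b D : ℤ) : ℤ_[p]) * stabp p ms α ((b : ℚ) / ((p * D : ℕ) : ℚ)) =
      (α - (jacobiSym p D : ℤ)) ^ 2 * (SD ms D : ℤ_[p]) := by
  classical
  have hp : p.Prime := Fact.out
  have hp0 : (p : ℚ) ≠ 0 := by exact_mod_cast hp.ne_zero
  have hD0 : (D : ℚ) ≠ 0 := by exact_mod_cast hD.ne'
  have hcop : Nat.Coprime p D := (Nat.Prime.coprime_iff_not_dvd hp).2 hpD
  set f : ℕ → ℤ := fun b => jacobiSym b D with hf
  have hfper : ∀ b, f (b + D) = f b := by
    intro b
    rw [hf]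
    simp only
    apply jacobiSym.mod_left'
    push_cast
    exact Int.add_emod_right _ _
  have hfmul : ∀ j b : ℕ, f (D * j + b) = f b := by
    intro j b
    induction j with
    | zero => rw [mul_zero, zero_add]
    | succ j ih =>
      have e : D * (j + 1) + b = D * j + b + D := by ring
      rw [e, hfper, ih]
  have hf0 : ∀ b : ℕ, ¬ b.Coprime D → f b = 0 := by
    intro b hb
    rw [hf]
    simp only
    rw [jacobiSym.eq_zero_iff]
    refine ⟨hD.ne', ?_⟩
    simpa [Int.gcd_natCast_natCast] using hb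
  have hχ : f p * f p = 1 := by
    have h4 : (p : ℤ).gcd D = 1 := by simpa [Int.gcd_natCast_natCast] using hcop
    have := jacobiSym.sq_one h4
    rwa [sq] at this
  have hfp : ∀ b : ℕ, f (p * b) = f p * f b := by
    intro b
    rw [hf]
    simp only
    push_cast
    exact jacobiSym.mul_left _ _ _
  -- a sum over the residues prime to `p`
  have hsplit : ∀ g : ℚ → ℤ,
      ∑ b ∈ (range (p * D)).filter (fun b => b.Coprime (p * D)), f b * g b =
        ∑ b ∈ range (D * p), f b * g b - ∑ c ∈ range D, f (p * c) * g ((p * c : ℕ) : ℚ) := by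
    intro g
    have h2 := sum_dvd (fun b => f b * g b) D p hp.pos
    rw [← h2, ← Finset.sum_sub_distrib, Finset.sum_filter, mul_comm p D]
    refine Finset.sum_congr rfl fun b _ => ?_
    by_cases hbD : b.Coprime D
    · by_cases hpb : p ∣ b
      · have hn : ¬ b.Coprime (D * p) := by
          intro hc
          have h3 := Nat.dvd_gcd hpb (dvd_mul_left p D)
          rw [hc] at h3
          exact hp.one_lt.ne' (Nat.dvd_one.1 h3)
        rw [if_neg hn, if_pos hpb, sub_self]
      · have hc : b.Coprime (D * p) :=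
          Nat.Coprime.mul_right hbD ((Nat.Prime.coprime_iff_not_dvd hp).2 hpb).symm
        rw [if_pos hc, if_neg hpb, sub_zero]
    · rw [hf0 b hbD]
      simp
  -- the sum of `ms (b / (p D))`
  have hA : ∑ b ∈ (range (p * D)).filter (fun b => b.Coprime (p * D)),
      f b * ms ((b : ℚ) / ((p * D : ℕ) : ℚ)) = (a - 2 * f p) * SD ms D := by
    have e0 := hsplit (fun x => ms (x / ((p * D : ℕ) : ℚ)))
    rw [e0, sum_blocks, Finset.sum_comm]
    have e1 : ∀ b ∈ range D, ∑ j ∈ range p, f (D * j + b) *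
        ms (((D * j + b : ℕ) : ℚ) / ((p * D : ℕ) : ℚ)) =
        f b * (a * ms ((b : ℚ) / D) - ms (((p * b : ℕ) : ℚ) / D)) := by
      intro b _
      have e2 : ∀ j ∈ range p, f (D * j + b) * ms (((D * j + b : ℕ) : ℚ) / ((p * D : ℕ) : ℚ)) =
          f b * ms (((b : ℚ) / D + j) / p) := by
        intro j _
        rw [hfmul]
        congr 2
        push_cast
        field_simp
        ring
      rw [Finset.sum_congr rfl e2, ← Finset.mul_sum]
      congr 1
      have h3 := hH ((b : ℚ) / D)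
      have e4 : ((p * b : ℕ) : ℚ) / D = p * ((b : ℚ) / D) := by
        push_cast
        ring
      rw [e4]
      linarith
    rw [Finset.sum_congr rfl e1]
    have e5 : ∑ c ∈ range D, f (p * c) * ms (((p * c : ℕ) : ℚ) / ((p * D : ℕ) : ℚ)) =
        f p * SD ms D := by
      unfold SD
      rw [Finset.mul_sum]
      refine Finset.sum_congr rfl fun c _ => ?_
      rw [hfp]
      have : ((p * c : ℕ) : ℚ) / ((p * D : ℕ) : ℚ) = (c : ℚ) / D := by
        push_cast
        field_simp
      rw [this]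
      ring
    have e6 : ∑ b ∈ range D, f b * ms (((p * b : ℕ) : ℚ) / D) = f p * SD ms D := by
      have hper := sum_perm (fun b => f b * ms ((b : ℚ) / D)) D p hD hcop (by
        intro b
        show f (b + D) * ms (((b + D : ℕ) : ℚ) / D) = f b * ms ((b : ℚ) / D)
        rw [hfper]
        have : ((b + D : ℕ) : ℚ) / D = (b : ℚ) / D + 1 := by
          push_cast
          field_simp
        rw [this, h1])
      unfold SD
      rw [Finset.mul_sum]
      have e7 : ∀ b ∈ range D, f b * ms (((p * b : ℕ) : ℚ) / D) =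
          f p * (f (p * b) * ms (((p * b : ℕ) : ℚ) / D)) := by
        intro b _
        rw [hfp, ← mul_assoc, ← mul_assoc, hχ, one_mul]
      rw [Finset.sum_congr rfl e7, ← Finset.mul_sum, hper, Finset.mul_sum]
    rw [e5]
    have e8 : ∑ b ∈ range D, f b * (a * ms ((b : ℚ) / D) - ms (((p * b : ℕ) : ℚ) / D)) =
        a * SD ms D - f p * SD ms D := by
      rw [← e6]
      unfold SD
      rw [Finset.mul_sum, ← Finset.sum_sub_distrib]
      refine Finset.sum_congr rfl fun b _ => ?_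
      ring
    rw [e8]
    ring
  -- the sum of `ms (b / D)`
  have hB : ∑ b ∈ (range (p * D)).filter (fun b => b.Coprime (p * D)),
      f b * ms ((b : ℚ) / D) = (p - 1) * SD ms D := by
    have e0 := hsplit (fun x => ms (x / D))
    rw [e0, sum_blocks, Finset.sum_comm]
    have e1 : ∀ b ∈ range D, ∑ j ∈ range p, f (D * j + b) * ms (((D * j + b : ℕ) : ℚ) / D) =
        p * (f b * ms ((b : ℚ) / D)) := by
      intro b _
      have e2 : ∀ j ∈ range p, f (D * j + b) * ms (((D * j + b : ℕ) : ℚ) / D) =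
          f b * ms ((b : ℚ) / D) := by
        intro j _
        rw [hfmul]
        have : ((D * j + b : ℕ) : ℚ) / D = (b : ℚ) / D + j := by
          push_cast
          field_simp
          ring
        rw [this, per_nat h1]
      rw [Finset.sum_congr rfl e2, Finset.sum_const, Finset.card_range, nsmul_eq_mul]
    rw [Finset.sum_congr rfl e1]
    have hper := sum_perm (fun b => f b * ms ((b : ℚ) / D)) D p hD hcop (by
      intro b
      show f (b + D) * ms (((b + D : ℕ) : ℚ) / D) = f b * ms ((b : ℚ) / D)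
      rw [hfper]
      have : ((b + D : ℕ) : ℚ) / D = (b : ℚ) / D + 1 := by
        push_cast
        field_simp
      rw [this, h1])
    rw [hper, ← Finset.mul_sum]
    unfold SD
    ring
  have hfin : ∑ b ∈ (range (p * D)).filter (fun b => b.Coprime (p * D)),
      ((jacobiSym b D : ℤ) : ℤ_[p]) * stabp p ms α ((b : ℚ) / ((p * D : ℕ) : ℚ)) =
      α * (((∑ b ∈ (range (p * D)).filter (fun b => b.Coprime (p * D)),
        f b * ms ((b : ℚ) / ((p * D : ℕ) : ℚ)) : ℤ)) : ℤ_[p]) -
      (((∑ b ∈ (range (p * D)).filter (fun b => b.Coprime (p * D)),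
        f b * ms ((b : ℚ) / D) : ℤ)) : ℤ_[p]) := by
    push_cast
    rw [Finset.mul_sum, ← Finset.sum_sub_distrib]
    refine Finset.sum_congr rfl fun b _ => ?_
    unfold stabp
    have e : (p : ℚ) * ((b : ℚ) / ((p : ℚ) * (D : ℚ))) = (b : ℚ) / D := by
      field_simp
    rw [e, hf]
    ring
  rw [hfin, hA, hB]
  push_cast
  have hχ' : ((f p : ℤ) : ℤ_[p]) * ((f p : ℤ) : ℤ_[p]) = 1 := by
    rw [← Int.cast_mul, hχ, Int.cast_one]
  have hf' : ((jacobiSym p D : ℤ) : ℤ_[p]) = ((f p : ℤ) : ℤ_[p]) := rfl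
  rw [hf']
  linear_combination (-(SD ms D : ℤ_[p])) * hα - (SD ms D : ℤ_[p]) * hχ'

theorem const_p {ms : ℚ → ℤ} (h1 : ∀ x, ms (x + 1) = ms x) {a : ℤ} (hH : Hecke ms p a)
    {D : ℕ} (hD : 0 < D) (hpD : ¬ p ∣ D) {α : ℤ_[p]} (hα : α ^ 2 - a * α + p = 0)
    {L : PowerSeries ℤ_[p]} (hL : IsLp p ms α D L) :
    α ^ 2 * PowerSeries.constantCoeff L =
      (α - (jacobiSym p D : ℤ)) ^ 2 * (SD ms D : ℤ_[p]) := by
  have h := hL 0
  have e0 : ((1 + PowerSeries.X) ^ p ^ 0 - 1 : PowerSeries ℤ_[p]) = PowerSeries.X := by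
    rw [pow_zero, pow_one]
    ring
  rw [e0, PowerSeries.X_dvd_iff, map_sub, map_mul, PowerSeries.constantCoeff_C, sub_eq_zero] at h
  rw [← const_sum h1 hH hD hpD hα, ← zero_add 2, h]
  unfold eltp
  rw [map_sum, zero_add, pow_one]
  refine Finset.sum_congr rfl fun b _ => ?_
  rw [map_mul, map_mul, map_pow, map_add, map_one, PowerSeries.constantCoeff_X, add_zero, one_pow,
    mul_one, PowerSeries.constantCoeff_C, map_intCast]

/-- nonvanishing of the constant term -/
theorem order_p {ms : ℚ → ℤ} (h1 : ∀ x, ms (x + 1) = ms x) {a : ℤ} (hH : Hecke ms p a)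
    {D : ℕ} (hD : 0 < D) (hpD : ¬ p ∣ D) {α : ℤ_[p]} (hα : α ^ 2 - a * α + p = 0)
    (ha : a ≤ p ∧ -p ≤ a) (hS : SD ms D ≠ 0) {L : PowerSeries ℤ_[p]} (hL : IsLp p ms α D L) :
    L.order = 0 := by
  have hp : p.Prime := Fact.out
  have h := const_p h1 hH hD hpD hα hL
  have hcop : (p : ℤ).gcd D = 1 := by
    have : Nat.Coprime p D := (Nat.Prime.coprime_iff_not_dvd hp).2 hpD
    simpa [Int.gcd_natCast_natCast] using this
  have hne : α - (jacobiSym p D : ℤ) ≠ 0 := by
    intro h0
    have h2 : α = ((jacobiSym p D : ℤ) : ℤ_[p]) := sub_eq_zero.1 h0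
    rw [h2] at hα
    have h3 : (jacobiSym p D) ^ 2 - a * jacobiSym p D + p = 0 := by exact_mod_cast hα
    have hp0 := hp.pos
    rcases jacobiSym.eq_one_or_neg_one hcop with h4 | h4 <;> rw [h4] at h3 <;> push_cast at h3 <;>
      omega
  have hSD : ((SD ms D : ℤ) : ℤ_[p]) ≠ 0 := by exact_mod_cast hS
  have hc : PowerSeries.constantCoeff L ≠ 0 := by
    intro h0
    rw [h0, mul_zero] at h
    exact mul_ne_zero (pow_ne_zero 2 hne) hSD h.symm
  have h5 := PowerSeries.order_le (φ := L) 0 (by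
    rw [PowerSeries.coeff_zero_eq_constantCoeff_apply]
    exact hc)
  exact le_antisymm (by exact_mod_cast h5) bot_le

end

/-- the constant term of the 2-adic `L`-function -/
theorem const_two {ms : ℚ → ℤ} (h1 : ∀ x, ms (x + 1) = ms x) {a : ℤ} (hH : Hecke ms 2 a)
    {D : ℕ} (hD : Odd D) {α : ℤ_[2]} (hα : α ^ 2 - a * α + 2 = 0) {L : Lam} (hL : IsL ms α D L) :
    α ^ 3 * PowerSeries.constantCoeff L =
      α * ((α - (jacobiSym 2 D : ℤ)) ^ 2 * (SD ms D : ℤ_[2])) := by
  classical
  have hD0 : 0 < D := hD.pos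
  have hDq : (D : ℚ) ≠ 0 := by exact_mod_cast hD0.ne'
  have h2D : ¬ 2 ∣ D := fun h => (Nat.not_even_iff_odd.2 hD) (even_iff_two_dvd.2 h)
  have h := hL 0
  rw [om_zero, PowerSeries.X_dvd_iff, map_sub, map_mul, PowerSeries.constantCoeff_C,
    sub_eq_zero] at h
  have hcs := const_sum (p := 2) h1 hH hD0 h2D (α := α) (by exact_mod_cast hα)
  have hcs' : ∑ b ∈ (range (2 * D)).filter (fun b => b.Coprime (2 * D)),
      ((jacobiSym b D : ℤ) : ℤ_[2]) * stab ms α ((b : ℚ) / ((2 * D : ℕ) : ℚ)) =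
      (α - (jacobiSym 2 D : ℤ)) ^ 2 * (SD ms D : ℤ_[2]) := by
    have e : ∀ x : ℚ, stab ms α x = stabp 2 ms α x := by
      intro x
      unfold stab stabp
      push_cast
      rfl
    simp only [e]
    exact_mod_cast hcs
  rw [← hcs', ← zero_add 3, h]
  unfold elt
  rw [map_sum]
  have e4 : 2 ^ (0 + 2) * D = (2 * D) * 2 := by ring
  rw [e4, Finset.sum_filter, sum_blocks, Finset.sum_comm, Finset.sum_filter, Finset.mul_sum]
  refine Finset.sum_congr rfl fun b _ => ?_
  have hcopj : ∀ j : ℕ, (2 * D * j + b).Coprime (2 * D * 2) ↔ b.Coprime (2 * D) := by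
    intro j
    have e5 : (2 * D * j + b).Coprime (2 * D) ↔ b.Coprime (2 * D) := by
      rw [add_comm, Nat.coprime_add_mul_left_left]
    rw [← e5]
    constructor
    · exact fun hc => Nat.Coprime.coprime_dvd_right (dvd_mul_right _ _) hc
    · intro hc
      exact Nat.Coprime.mul_right hc (Nat.Coprime.coprime_dvd_right (dvd_mul_right 2 D) hc)
  have hterm : ∀ j ∈ range 2, (if (2 * D * j + b).Coprime (2 * D * 2) then
      PowerSeries.constantCoeff ((((jacobiSym ((2 * D * j + b : ℕ) : ℤ) D : ℤ) : Lam)) *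
        PowerSeries.C (stab ms α (((2 * D * j + b : ℕ) : ℚ) / ((2 * D * 2 : ℕ) : ℚ))) *
          ex 0 (2 * D * j + b)) else 0) =
      if b.Coprime (2 * D) then ((jacobiSym b D : ℤ) : ℤ_[2]) *
        stab ms α (((b : ℚ) / ((2 * D : ℕ) : ℚ) + j) / 2) else 0 := by
    intro j _
    by_cases hb : b.Coprime (2 * D)
    · rw [if_pos ((hcopj j).2 hb), if_pos hb, map_mul, map_mul, map_intCast,
        PowerSeries.constantCoeff_C]
      have e6 : PowerSeries.constantCoeff (ex 0 (2 * D * j + b)) = (1 : ℤ_[2]) := by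
        unfold ex pw
        rw [map_pow, map_add, map_one, PowerSeries.constantCoeff_X, add_zero, one_pow]
      have e7 : jacobiSym ((2 * D * j + b : ℕ) : ℤ) D = jacobiSym b D := by
        apply jacobiSym.mod_left'
        push_cast
        rw [show (2 * (D : ℤ) * j + b) = b + D * (2 * j) by ring]
        exact Int.add_mul_emod_self_left _ _ _
      have e8 : ((2 * D * j + b : ℕ) : ℚ) / ((2 * D * 2 : ℕ) : ℚ) =
          ((b : ℚ) / ((2 * D : ℕ) : ℚ) + j) / 2 := by
        push_cast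
        field_simp
        ring
      rw [e6, e7, e8, mul_one]
    · rw [if_neg (fun hc => hb ((hcopj j).1 hc)), if_neg hb]
  have hgoal : ∑ j ∈ range 2, (if b.Coprime (2 * D) then ((jacobiSym b D : ℤ) : ℤ_[2]) *
        stab ms α (((b : ℚ) / ((2 * D : ℕ) : ℚ) + j) / 2) else 0) =
      α * if b.Coprime (2 * D) then ((jacobiSym b D : ℤ) : ℤ_[2]) *
        stab ms α ((b : ℚ) / ((2 * D : ℕ) : ℚ)) else 0 := by
    by_cases hb : b.Coprime (2 * D)
    · simp only [if_pos hb]
      rw [← Finset.mul_sum, Finset.sum_range_succ, Finset.sum_range_one]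
      have e9 : stab ms α (((b : ℚ) / ((2 * D : ℕ) : ℚ) + (0 : ℕ)) / 2) +
          stab ms α (((b : ℚ) / ((2 * D : ℕ) : ℚ) + (1 : ℕ)) / 2) =
          α * stab ms α ((b : ℚ) / ((2 * D : ℕ) : ℚ)) := by
        set x := (b : ℚ) / ((2 * D : ℕ) : ℚ) with hx
        have hh := hH x
        rw [Finset.sum_range_succ, Finset.sum_range_one] at hh
        have h2a : ms (2 * ((x + (0 : ℕ)) / 2)) = ms x := by
          congr 1
          push_cast
          ring
        have h2b : ms (2 * ((x + (1 : ℕ)) / 2)) = ms x := by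
          rw [← h1 x]
          congr 1
          push_cast
          ring
        unfold stab
        rw [h2a, h2b]
        have hh' : ((ms ((x + (0 : ℕ)) / 2) : ℤ) : ℤ_[2]) + ((ms ((x + (1 : ℕ)) / 2) : ℤ) : ℤ_[2]) +
            ((ms (2 * x) : ℤ) : ℤ_[2]) = (a : ℤ_[2]) * ((ms x : ℤ) : ℤ_[2]) := by
          have := congrArg (fun z : ℤ => (z : ℤ_[2])) hh
          push_cast at this
          push_cast
          exact this
        linear_combination α * hh' - (ms x : ℤ_[2]) * hα
      rw [e9]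
      ring
    · simp only [if_neg hb]
      simp
  refine Eq.trans ?_ hgoal
  refine (Finset.sum_congr rfl fun j hj => ?_)
  rw [← hterm j hj]

/-- order zero at two gives a nonzero sum -/
theorem SD_ne {ms : ℚ → ℤ} (h1 : ∀ x, ms (x + 1) = ms x) {a : ℤ} (hH : Hecke ms 2 a)
    {D : ℕ} (hD : Odd D) {α : ℤ_[2]} (hu : IsUnit α) (hα : α ^ 2 - a * α + 2 = 0) {L : Lam}
    (hL : IsL ms α D L) (h0 : L.order = 0) : SD ms D ≠ 0 := by
  intro hS
  have h := const_two h1 hH hD hα hL
  rw [hS, Int.cast_zero, mul_zero, mul_zero] at h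
  have hc : PowerSeries.constantCoeff L = 0 := by
    rcases mul_eq_zero.1 h with h' | h'
    · exact absurd (pow_eq_zero_iff (by norm_num) |>.1 h') hu.ne_zero
    · exact h'
  have hne : L ≠ 0 := by
    rintro rfl
    rw [PowerSeries.order_zero] at h0
    exact absurd h0 (by simp)
  have h2 := PowerSeries.coeff_order hne
  rw [h0] at h2
  apply h2
  simpa using hc

end

end Pool.Agent.Lib.MP_72b84e_nt.Two
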