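import Pool.Agent.Lib.MP_72b84e_nt.Two.Defs

/-!
MP_72b84e_nt, board TWO, row NRM (helper73): the norm relation of the elements of finite level at a
prime `q`.
-/

open Finset

namespace Pool.Agent.Lib.MP_72b84e_nt.Two

noncomputable section

theorem sum_blocks {R : Type} [AddCommMonoid R] (G : ℕ → R) (M q : ℕ) :
    ∑ b ∈ range (M * q), G b = ∑ j ∈ range q, ∑ a ∈ range M, G (M * j + a) := by
  induction q with
  | zero => simp
  | succ q ih =>
    rw [Nat.mul_succ, Finset.sum_range_add, ih, Finset.sum_range_succ]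

theorem sum_dvd {R : Type} [AddCommMonoid R] (G : ℕ → R) (M q : ℕ) (hq : 0 < q) :
    ∑ b ∈ range (M * q), (if q ∣ b then G b else 0) = ∑ c ∈ range M, G (q * c) := by
  rw [mul_comm, sum_blocks]
  refine Finset.sum_congr rfl fun j _ => ?_
  have h0 : (0 : ℕ) ∈ range q := Finset.mem_range.2 hq
  rw [← Finset.add_sum_erase _ _ h0, if_pos (by simp), add_zero]
  have h1 : ∑ x ∈ (range q).erase 0, (if q ∣ q * j + x then G (q * j + x) else 0) = 0 := by
    refine Finset.sum_eq_zero fun x hx => ?_
    rw [Finset.mem_erase, Finset.mem_range] at hx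
    rw [if_neg]
    intro hd
    have h2 : q ∣ x := (Nat.dvd_add_right (dvd_mul_right q j)).1 hd
    exact absurd (Nat.le_of_dvd (Nat.pos_of_ne_zero hx.1) h2) (by omega)
  rw [h1, add_zero]

theorem sum_perm {R : Type} [AddCommMonoid R] (F : ℕ → R) (M q : ℕ) (hM : 0 < M)
    (hq : Nat.Coprime q M) (hF : ∀ a, F (a + M) = F a) :
    ∑ a ∈ range M, F (q * a) = ∑ a ∈ range M, F a := by
  classical
  have hmod : ∀ a, F (a % M) = F a := Function.Periodic.map_mod_nat hF
  have himg : (range M).image (fun a => q * a % M) = range M := by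
    refine Finset.eq_of_subset_of_card_le ?_ ?_
    · intro x hx
      obtain ⟨a, _, rfl⟩ := Finset.mem_image.1 hx
      exact Finset.mem_range.2 (Nat.mod_lt _ hM)
    · rw [Finset.card_image_of_injOn]
      intro a ha b hb hab
      have ha' := Finset.mem_range.1 (Finset.mem_coe.1 ha)
      have hb' := Finset.mem_range.1 (Finset.mem_coe.1 hb)
      have h1 : q * a ≡ q * b [MOD M] := hab
      have h2 : a ≡ b [MOD M] := Nat.ModEq.cancel_left_of_coprime (by
        rw [Nat.gcd_comm]; exact hq) h1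
      exact Nat.ModEq.eq_of_lt_of_lt h2 ha' hb'
  conv_rhs => rw [← himg]
  rw [Finset.sum_image]
  · exact Finset.sum_congr rfl fun a _ => (hmod _).symm
  · intro a ha b hb hab
    have ha' := Finset.mem_range.1 (Finset.mem_coe.1 ha)
    have hb' := Finset.mem_range.1 (Finset.mem_coe.1 hb)
    have h1 : q * a ≡ q * b [MOD M] := hab
    have h2 : a ≡ b [MOD M] := Nat.ModEq.cancel_left_of_coprime (by
      rw [Nat.gcd_comm]; exact hq) h1
    exact Nat.ModEq.eq_of_lt_of_lt h2 ha' hb'

theorem per_nat {ms : ℚ → ℤ} (h1 : ∀ x, ms (x + 1) = ms x) (k : ℕ) (x : ℚ) : ms (x + k) = ms x := by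
  induction k with
  | zero => simp
  | succ k ih =>
    push_cast
    rw [← add_assoc, h1, ih]

/-- the Hecke relation of the stabilised symbol -/
theorem stab_hecke {ms : ℚ → ℤ} (h1 : ∀ x, ms (x + 1) = ms x) {q : ℕ} {a : ℤ} (hH : Hecke ms q a)
    (hq : q.Prime) (hq2 : q ≠ 2) (α : ℤ_[2]) (x : ℚ) :
    ∑ j ∈ range q, stab ms α ((x + j) / q) + stab ms α (q * x) = (a : ℤ_[2]) * stab ms α x := by
  have hq0 : (q : ℚ) ≠ 0 := by exact_mod_cast hq.ne_zero
  have e1 : ∑ j ∈ range q, ms (2 * ((x + j) / q)) = ∑ j ∈ range q, ms ((2 * x + j) / q) := by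
    have h2 := sum_perm (fun j => ms ((2 * x + j) / q)) q 2 hq.pos
      ((Nat.coprime_primes Nat.prime_two hq).2 (Ne.symm hq2)) (by
        intro b
        have : (2 * x + ((b + q : ℕ) : ℚ)) / q = (2 * x + b) / q + 1 := by
          push_cast
          field_simp
          ring
        rw [this, h1])
    rw [← h2]
    refine Finset.sum_congr rfl fun j _ => ?_
    congr 1
    push_cast
    ring
  have e2 := hH x
  have e3 := hH (2 * x)
  rw [← e1] at e3
  have e4 : (q : ℚ) * (2 * x) = 2 * (q * x) := by ring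
  rw [e4] at e3
  unfold stab
  rw [Finset.sum_sub_distrib, ← Finset.mul_sum]
  have e2' : (∑ j ∈ range q, (ms ((x + j) / q) : ℤ_[2])) + (ms (q * x) : ℤ_[2]) =
      (a : ℤ_[2]) * (ms x : ℤ_[2]) := by exact_mod_cast congrArg (fun z : ℤ => (z : ℤ_[2])) e2
  have e3' : (∑ j ∈ range q, (ms (2 * ((x + j) / q)) : ℤ_[2])) + (ms (2 * (q * x)) : ℤ_[2]) =
      (a : ℤ_[2]) * (ms (2 * x) : ℤ_[2]) := by
    exact_mod_cast congrArg (fun z : ℤ => (z : ℤ_[2])) e3
  linear_combination α * e2' - e3'

theorem ex_congr {n a b : ℕ} (h : (a : ZMod (2 ^ (n + 2))) = b) : ex n a = ex n b := by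
  unfold ex dlog
  rw [h]

theorem nrm (hdlg : DlgStatement) : NrmStatement := by
  classical
  intro ms α a m D n q h1 hH hq hq2 hm hm0 hqm hDm u hu
  set M : ℕ := 2 ^ (n + 2) * m with hM
  have hM0 : 0 < M := Nat.mul_pos (pow_pos two_pos _) hm0
  have hMq : 2 ^ (n + 2) * (m * q) = M * q := by rw [hM]; ring
  have hqM : Nat.Coprime q M := by
    rw [hM]
    refine Nat.Coprime.mul_right ?_ ((Nat.Prime.coprime_iff_not_dvd hq).2 hqm)
    exact Nat.Coprime.pow_right _ ((Nat.coprime_primes hq Nat.prime_two).2 hq2)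
  have hqMr : (q : ℚ) ≠ 0 := by exact_mod_cast hq.ne_zero
  have hMr : (M : ℚ) ≠ 0 := by exact_mod_cast hM0.ne'
  have h2M : 2 ^ (n + 2) ∣ M := by rw [hM]; exact dvd_mul_right _ _
  have hDM : D ∣ M := hDm.trans (by rw [hM]; exact dvd_mul_left _ _)
  have hodd : ∀ b : ℕ, b.Coprime M → Odd b := by
    intro b hb
    rw [← Nat.not_even_iff_odd, even_iff_two_dvd]
    intro h2
    have h3 : 2 ∣ M := (dvd_pow_self 2 (by omega)).trans h2M
    have h4 := Nat.dvd_gcd h2 h3
    rw [hb] at h4
    omega
  have hqodd : Odd q := hq.odd_of_ne_two hq2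
  -- the ring
  let π : Lam →+* Lam ⧸ Ideal.span {om n} := Ideal.Quotient.mk _
  have hπ : ∀ A B : Lam, om n ∣ A - B ↔ π A = π B := by
    intro A B
    rw [← Ideal.mem_span_singleton]
    exact Ideal.Quotient.eq.symm
  set f : ℕ → Lam := fun b => if b.Coprime M then ((jacobiSym b D : ℤ) : Lam) * ex n b else 0
    with hf
  set h : ℚ → Lam := fun x => PowerSeries.C (stab ms α x) with hh
  have hper : ∀ x : ℚ, h (x + 1) = h x := by
    intro x
    rw [hh]
    simp only
    congr 1
    unfold stab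
    have e : (2 : ℚ) * (x + 1) = 2 * x + 1 + 1 := by ring
    rw [h1, e, h1, h1]
  have hfper : ∀ b : ℕ, f (b + M) = f b := by
    intro b
    rw [hf]
    simp only
    have e1 : (b + M).Coprime M ↔ b.Coprime M := by
      rw [Nat.coprime_add_self_left]
    have e2 : jacobiSym ((b + M : ℕ) : ℤ) D = jacobiSym b D := by
      apply jacobiSym.mod_left'
      obtain ⟨k, hk⟩ := hDM
      rw [hk]
      push_cast
      exact Int.add_mul_emod_self_left _ _ _
    have e3 : ex n (b + M) = ex n b := by
      apply ex_congr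
      push_cast
      have : ((M : ℕ) : ZMod (2 ^ (n + 2))) = 0 := (ZMod.natCast_eq_zero_iff _ _).2 h2M
      rw [this, add_zero]
    rw [e2, e3]
    by_cases hc : b.Coprime M
    · rw [if_pos hc, if_pos (e1.2 hc)]
    · rw [if_neg hc, if_neg (fun h => hc (e1.1 h))]
  have hfmul : ∀ j b : ℕ, f (M * j + b) = f b := by
    intro j b
    induction j with
    | zero => rw [mul_zero, zero_add]
    | succ j ih =>
      have e : M * (j + 1) + b = M * j + b + M := by ring
      rw [e, hfper, ih]
  -- the element of level `m`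
  have helt : elt ms α m D n = ∑ b ∈ range M, f b * h ((b : ℚ) / M) := by
    unfold elt
    rw [Finset.sum_filter]
    refine Finset.sum_congr rfl fun b _ => ?_
    rw [hf, hh]
    simp only
    split_ifs
    · ring
    · rw [zero_mul]
  -- the element of level `m q`
  have helt' : elt ms α (m * q) D n = ∑ b ∈ range (M * q), f b * h ((b : ℚ) / (M * q : ℕ)) -
      ∑ b ∈ range (M * q), (if q ∣ b then f b * h ((b : ℚ) / (M * q : ℕ)) else 0) := by
    unfold elt
    rw [hMq, ← Finset.sum_sub_distrib, Finset.sum_filter]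
    refine Finset.sum_congr rfl fun b _ => ?_
    rw [hf, hh]
    simp only
    by_cases hb : b.Coprime M
    · by_cases hd : q ∣ b
      · have hn : ¬ b.Coprime (M * q) := by
          intro hc
          have h3 := Nat.dvd_gcd hd (dvd_mul_left q M)
          rw [hc] at h3
          exact hq.one_lt.ne' (Nat.dvd_one.1 h3)
        rw [if_neg hn, if_pos hd, sub_self]
      · have hc : b.Coprime (M * q) := by
          refine Nat.Coprime.mul_right hb ?_
          exact ((Nat.Prime.coprime_iff_not_dvd hq).2 hd).symm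
        rw [if_pos hc, if_neg hd, if_pos hb, sub_zero]
        ring
    · have hn : ¬ b.Coprime (M * q) := fun hc => hb (Nat.Coprime.coprime_dvd_right
        (dvd_mul_right M q) hc)
      rw [if_neg hn, if_neg hb, zero_mul, ite_self, sub_zero]
  -- first sum
  have hS1 : ∑ b ∈ range (M * q), f b * h ((b : ℚ) / (M * q : ℕ)) =
      ∑ b ∈ range M, f b * ((a : Lam) * h ((b : ℚ) / M) - h ((q * b : ℕ) / (M : ℚ))) := by
    rw [sum_blocks, Finset.sum_comm]
    refine Finset.sum_congr rfl fun b _ => ?_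
    have e1 : ∀ j ∈ range q, f (M * j + b) * h (((M * j + b : ℕ) : ℚ) / (M * q : ℕ)) =
        f b * h (((b : ℚ) / M + j) / q) := by
      intro j _
      rw [hfmul]
      congr 2
      push_cast
      field_simp
      ring
    rw [Finset.sum_congr rfl e1, ← Finset.mul_sum]
    congr 1
    have e2 := stab_hecke h1 hH hq hq2 α ((b : ℚ) / M)
    have e3 : ∑ j ∈ range q, h (((b : ℚ) / M + j) / q) + h (q * ((b : ℚ) / M)) =
        (a : Lam) * h ((b : ℚ) / M) := by
      rw [hh]
      simp only
      rw [← map_sum, ← map_add, e2, map_mul]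
      congr 1
      exact map_intCast _ _
    have e4 : ((q * b : ℕ) : ℚ) / M = q * ((b : ℚ) / M) := by
      push_cast
      ring
    rw [e4, ← e3]
    ring
  -- second sum
  have hS2 : ∑ b ∈ range (M * q), (if q ∣ b then f b * h ((b : ℚ) / (M * q : ℕ)) else 0) =
      ∑ c ∈ range M, f (q * c) * h ((c : ℚ) / M) := by
    rw [sum_dvd (fun b => f b * h ((b : ℚ) / (M * q : ℕ))) M q hq.pos]
    refine Finset.sum_congr rfl fun c _ => ?_
    congr 2
    push_cast
    field_simp
  -- multiplicativity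
  have hχ : (jacobiSym q D : ℤ) * jacobiSym q D = 1 := by
    have h3 : (q : ℤ).gcd D = 1 := by
      have h4 : Nat.Coprime q D := Nat.Coprime.coprime_dvd_right hDM hqM
      simpa [Int.gcd_natCast_natCast] using h4
    have := jacobiSym.sq_one h3
    rwa [sq] at this
  have hmulf : ∀ c : ℕ, π (f (q * c)) = π (((jacobiSym q D : ℤ) : Lam) * ex n q * f c) := by
    intro c
    rw [hf]
    simp only
    by_cases hc : c.Coprime M
    · have hqc : (q * c).Coprime M := Nat.Coprime.mul_left hqM hc
      rw [if_pos hqc, if_pos hc]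
      have h3 := (hπ _ _).1 (hdlg.1 n q c hqodd (hodd c hc))
      rw [map_mul, h3, map_mul, map_mul, map_mul, map_mul]
      have h4 : jacobiSym ((q * c : ℕ) : ℤ) D = jacobiSym q D * jacobiSym c D := by
        push_cast
        exact jacobiSym.mul_left _ _ _
      rw [h4, Int.cast_mul, map_mul]
      ring
    · have hqc : ¬ (q * c).Coprime M := fun h => hc (Nat.Coprime.coprime_dvd_left
        (dvd_mul_left c q) h)
      rw [if_neg hqc, if_neg hc, mul_zero]
  have hu' : π (ex n q) * π u = 1 := by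
    rw [← map_mul, (hπ _ _).1 hu, map_one]
  have hχπ : π ((jacobiSym q D : ℤ) : Lam) * π ((jacobiSym q D : ℤ) : Lam) = 1 := by
    rw [← map_mul, ← Int.cast_mul, hχ, Int.cast_one, map_one]
  have hdivf : ∀ c : ℕ, π (f c) = π (((jacobiSym q D : ℤ) : Lam) * u * f (q * c)) := by
    intro c
    rw [map_mul, hmulf c, map_mul, map_mul, map_mul]
    linear_combination (-(π (f c)) * (π (ex n q) * π u)) * hχπ - π (f c) * hu'
  -- third sum
  have hS3 : π (∑ b ∈ range M, f b * h ((q * b : ℕ) / (M : ℚ))) =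
      π (((jacobiSym q D : ℤ) : Lam) * u * ∑ b ∈ range M, f b * h ((b : ℚ) / M)) := by
    have hp := sum_perm (fun b => f b * h ((b : ℚ) / M)) M q hM0 hqM (by
      intro b
      show f (b + M) * h (((b + M : ℕ) : ℚ) / M) = f b * h ((b : ℚ) / M)
      rw [hfper]
      have : ((b + M : ℕ) : ℚ) / M = (b : ℚ) / M + 1 := by
        push_cast
        field_simp
      rw [this, hper])
    rw [← hp, map_sum, map_mul, map_sum, Finset.mul_sum]
    refine Finset.sum_congr rfl fun b _ => ?_
    rw [map_mul, hdivf b]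
    simp only [map_mul]
    ring
  have hS2' : π (∑ c ∈ range M, f (q * c) * h ((c : ℚ) / M)) =
      π (((jacobiSym q D : ℤ) : Lam) * ex n q * ∑ b ∈ range M, f b * h ((b : ℚ) / M)) := by
    rw [map_sum, map_mul, map_sum, Finset.mul_sum]
    refine Finset.sum_congr rfl fun c _ => ?_
    rw [map_mul, hmulf c]
    simp only [map_mul]
    ring
  rw [hπ, helt', hS1, hS2, helt]
  have hS1' : ∑ b ∈ range M, f b * ((a : Lam) * h ((b : ℚ) / M) - h ((q * b : ℕ) / (M : ℚ))) =
      (a : Lam) * ∑ b ∈ range M, f b * h ((b : ℚ) / M) -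
        ∑ b ∈ range M, f b * h ((q * b : ℕ) / (M : ℚ)) := by
    rw [Finset.mul_sum, ← Finset.sum_sub_distrib]
    refine Finset.sum_congr rfl fun b _ => ?_
    ring
  rw [hS1', map_sub, map_sub, hS3, hS2']
  simp only [map_mul, map_sub, map_add]
  ring

end

end Pool.Agent.Lib.MP_72b84e_nt.Two
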