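import Pool.Agent.Lib.MP_72b84e_nt.Two.Ser
import Pool.Agent.Lib.MP_72b84e_nt.Two.Nrm
import Pool.Agent.Lib.MP_72b84e_nt.Two.Omg

/-!
MP_72b84e_nt, board TWO (helper73). The contents of the truncated 2-adic `L`-functions of the
twists form a Lipschitz system.
-/

open Finset

namespace Pool.Agent.Lib.MP_72b84e_nt.Two

open Pool.Agent.Lib.MP_50bb2e_nt.Qtw (Dyadic Lip Dif)
open Pool.Agent.Lib.MP_50bb2e_nt.Low (HasLip)
open Pool.Agent.Lib.MP_50bb2e_nt.Hgp (Dv exists_fun dv_torsion)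

noncomputable section

theorem const_pw (k : ℕ) : PowerSeries.constantCoeff (pw k) = (1 : ℤ_[2]) := by
  unfold pw
  rw [map_pow, map_add, map_one, PowerSeries.constantCoeff_X, add_zero, one_pow]

theorem jac_prod (a : ℤ) (S : Finset ℕ) (hS : ∀ p ∈ S, p ≠ 0) :
    jacobiSym a (∏ p ∈ S, p) = ∏ p ∈ S, jacobiSym a p := by
  classical
  induction S using Finset.induction_on with
  | empty => simp
  | insert p S hp ih =>
    rw [Finset.prod_insert hp, Finset.prod_insert hp]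
    have h1 : NeZero p := ⟨hS p (mem_insert_self _ _)⟩
    have h2 : NeZero (∏ p ∈ S, p) :=
      ⟨Finset.prod_ne_zero_iff.2 fun q hq => hS q (mem_insert_of_mem hq)⟩
    rw [jacobiSym.mul_right, ih fun q hq => hS q (mem_insert_of_mem hq)]

/-- the cube sums of the elements of finite level are divisible -/
theorem elt_cube (ms : ℚ → ℤ) (α : ℤ_[2]) (m n : ℕ) {C U : Finset ℕ} (hd : Disjoint C U)
    (hC : ∀ p ∈ C, p ≠ 0) (hU : ∀ p ∈ U, p.Prime ∧ p ∣ m) :
    ∃ Q : Lam, ∑ S ∈ U.powerset, ((-1 : ℤ) ^ S.card) • elt ms α m (∏ p ∈ C ∪ S, p) n =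
      ((2 : ℤ) ^ U.card) • Q := by
  classical
  have hval : ∀ a : ℕ, a.Coprime (2 ^ (n + 2) * m) → ∃ k : ℤ,
      ∑ S ∈ U.powerset, ((-1 : ℤ) ^ S.card) * jacobiSym a (∏ p ∈ C ∪ S, p) = 2 ^ U.card * k := by
    intro a ha
    have e1 : ∑ S ∈ U.powerset, ((-1 : ℤ) ^ S.card) * jacobiSym a (∏ p ∈ C ∪ S, p) =
        jacobiSym a (∏ p ∈ C, p) * ∏ p ∈ U, (1 - jacobiSym a p) := by
      have e2 : ∏ p ∈ U, (1 - jacobiSym a p) = ∑ S ∈ U.powerset, ∏ p ∈ S, (-jacobiSym a p) := by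
        rw [← Finset.prod_one_add]
        exact Finset.prod_congr rfl fun p _ => by ring
      rw [e2, Finset.mul_sum]
      refine Finset.sum_congr rfl fun S hS => ?_
      have hSU := Finset.mem_powerset.1 hS
      have hdS : Disjoint C S := Finset.disjoint_of_subset_right hSU hd
      have hne : ∀ p ∈ C ∪ S, p ≠ 0 := by
        intro p hp
        rcases Finset.mem_union.1 hp with h | h
        · exact hC p h
        · exact (hU p (hSU h)).1.ne_zero
      rw [jac_prod _ _ hne, Finset.prod_union hdS, jac_prod _ _ hC, Finset.prod_neg]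
      ring
    rw [e1]
    have h2 : (2 : ℤ) ^ U.card ∣ ∏ p ∈ U, (1 - jacobiSym a p) := by
      rw [← Finset.prod_const]
      refine Finset.prod_dvd_prod_of_dvd _ _ fun p hp => ?_
      have hcop : (a : ℤ).gcd p = 1 := by
        have h3 : Nat.Coprime a p := Nat.Coprime.coprime_dvd_right
          ((hU p hp).2.trans (dvd_mul_left _ _)) ha
        simpa [Int.gcd_natCast_natCast] using h3
      rcases jacobiSym.eq_one_or_neg_one hcop with h | h <;> rw [h] <;> norm_num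
    obtain ⟨k, hk⟩ := h2
    exact ⟨jacobiSym a (∏ p ∈ C, p) * k, by rw [hk]; ring⟩
  choose! k hk using hval
  refine ⟨∑ a ∈ (Finset.range (2 ^ (n + 2) * m)).filter (fun a => a.Coprime (2 ^ (n + 2) * m)),
    ((k a : ℤ) : Lam) * (PowerSeries.C (stab ms α ((a : ℚ) / ((2 ^ (n + 2) * m : ℕ) : ℚ))) *
      ex n a), ?_⟩
  unfold elt
  simp only [Finset.smul_sum]
  rw [Finset.sum_comm]
  refine Finset.sum_congr rfl fun a ha => ?_
  have hk' := hk a (Finset.mem_filter.1 ha).2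
  have e3 : ∀ S ∈ U.powerset, ((-1 : ℤ) ^ S.card) • (((jacobiSym a (∏ p ∈ C ∪ S, p) : ℤ) : Lam) *
      PowerSeries.C (stab ms α ((a : ℚ) / ((2 ^ (n + 2) * m : ℕ) : ℚ))) * ex n a) =
      ((((-1 : ℤ) ^ S.card) * jacobiSym a (∏ p ∈ C ∪ S, p) : ℤ) : Lam) *
      (PowerSeries.C (stab ms α ((a : ℚ) / ((2 ^ (n + 2) * m : ℕ) : ℚ))) * ex n a) := by
    intro S _
    rw [zsmul_eq_mul]
    push_cast
    ring
  rw [Finset.sum_congr rfl e3, ← Finset.sum_mul, ← Int.cast_sum, hk', zsmul_eq_mul]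
  push_cast
  ring

theorem trn_dvd {r : ℕ} {α : ℤ_[2]} (hα : IsUnit α) {Y Q f : Lam} {u n : ℕ}
    (h : PowerSeries.C (α ^ (n + 3)) * Y = ((2 : ℤ) ^ u) • Q + om n * f) (hn : r + u ≤ n) :
    ∃ q : Fin (r + 1) → ℤ_[2], trn r Y = ((2 : ℤ) ^ u) • q := by
  have h1 : ∀ i : Fin (r + 1), (2 : ℤ_[2]) ^ u ∣ PowerSeries.coeff (i : ℕ) Y := by
    intro i
    have h2 := congrArg (PowerSeries.coeff (i : ℕ)) h
    rw [PowerSeries.coeff_C_mul, map_add] at h2
    have h3 : (2 : ℤ_[2]) ^ u ∣ PowerSeries.coeff (i : ℕ) (((2 : ℤ) ^ u) • Q) := by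
      rw [map_zsmul, zsmul_eq_mul]
      push_cast
      exact dvd_mul_right _ _
    have h4 : (2 : ℤ_[2]) ^ u ∣ PowerSeries.coeff (i : ℕ) (om n * f) :=
      om_coeff f (Nat.lt_succ_iff.1 i.2) hn
    have h5 : (2 : ℤ_[2]) ^ u ∣ α ^ (n + 3) * PowerSeries.coeff (i : ℕ) Y := by
      rw [h2]
      exact dvd_add h3 h4
    exact (IsUnit.dvd_mul_left (hα.pow _)).1 h5
  choose q hq using h1
  refine ⟨q, ?_⟩
  funext i
  rw [Pi.smul_apply, zsmul_eq_mul]
  change PowerSeries.coeff (i : ℕ) Y = _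
  rw [hq i]
  push_cast
  rfl

theorem two_sys (hdlg : DlgStatement) {ms : ℚ → ℤ} (h1 : ∀ x, ms (x + 1) = ms x) {α : ℤ_[2]}
    (hα : IsUnit α) {aq : ℕ → ℤ} {P : Set ℕ}
    (hP : ∀ q ∈ P, q.Prime ∧ q ≠ 2 ∧ Hecke ms q (aq q) ∧ Odd (aq q)) (L : ℕ → Lam)
    (hL : ∀ S : Finset ℕ, (S : Set ℕ) ⊆ P → IsL ms α (∏ p ∈ S, p) (L (∏ p ∈ S, p))) (r : ℕ)
    {v : AbsoluteValue ℂ ℝ} (hv : Dyadic v) :
    HasLip v P 1 (fun S => sz v (trn r (L (∏ p ∈ S, p)))) := by
  classical
  have hodd : ∀ q ∈ P, Odd q := fun q hq => (hP q hq).1.odd_of_ne_two (hP q hq).2.1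
  -- inverses
  have hinv : ∀ n q : ℕ, ∃ k : ℕ, q ∈ P → om n ∣ ex n q * pw k - 1 := by
    intro n q
    by_cases hq : q ∈ P
    · obtain ⟨g, hg, k, rfl⟩ := hdlg.2.2.2 n q (hodd q hq)
      exact ⟨k, fun _ => hg⟩
    · exact ⟨0, fun h => absurd h hq⟩
  choose kk hkk using hinv
  let fc : ℕ → Finset ℕ → ℕ → Lam := fun n S q =>
    (aq q : Lam) - ((jacobiSym q (∏ p ∈ S, p) : ℤ) : Lam) * (ex n q + pw (kk n q))
  let fac : ℕ → Finset ℕ → Finset ℕ → Lam := fun n T S => ∏ q ∈ T \ S, fc n S q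
  have hfc : ∀ n S, ∀ q ∈ P, IsUnit (fc n S q) := by
    intro n S q hq
    refine isUnit_factor (hP q hq).2.2.2 _ ⟨1, ?_⟩
    have e : PowerSeries.constantCoeff (ex n q + pw (kk n q)) = (1 : ℤ_[2]) + 1 := by
      rw [map_add, const_pw]
      unfold ex
      rw [const_pw]
    rw [e]
    norm_num
  have hfac : ∀ n (T S : Finset ℕ), (T : Set ℕ) ⊆ P → IsUnit (fac n T S) := by
    intro n T S hT
    refine IsUnit.prod_iff.2 fun q hq => hfc n S q (hT (Finset.mem_coe.2 ?_))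
    exact (Finset.mem_sdiff.1 hq).1
  -- the congruences
  have hcong : ∀ n (R S : Finset ℕ), (R : Set ℕ) ⊆ P → (S : Set ℕ) ⊆ P → Disjoint R S →
      om n ∣ PowerSeries.C (α ^ (n + 3)) * ((∏ q ∈ R, fc n S q) * L (∏ p ∈ S, p)) -
        elt ms α (∏ p ∈ R ∪ S, p) (∏ p ∈ S, p) n := by
    intro n R S
    induction R using Finset.induction_on with
    | empty =>
      intro _ hS _
      rw [Finset.prod_empty, one_mul, Finset.empty_union]
      exact hL S hS n
    | insert q R hqR ih =>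
      intro hR hS hd
      have hRP : (R : Set ℕ) ⊆ P := fun x hx => hR (by
        rw [Finset.coe_insert]; exact Set.mem_insert_of_mem _ hx)
      have hqP : q ∈ P := hR (by rw [Finset.coe_insert]; exact Set.mem_insert _ _)
      rw [Finset.disjoint_insert_left] at hd
      have hRS : ∀ p ∈ R ∪ S, p ∈ P := by
        intro x hx
        rcases Finset.mem_union.1 hx with hx | hx
        · exact hRP hx
        · exact hS hx
      have hqn : q ∉ R ∪ S := by
        rw [Finset.mem_union]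
        rintro (h | h)
        · exact hqR h
        · exact hd.1 h
      have ih' := ih hRP hS hd.2
      obtain ⟨hqp, hq2, hqH, hqa⟩ := hP q hqP
      have hmodd : Odd (∏ p ∈ R ∪ S, p) :=
        Finset.prod_induction _ _ (fun a b ha hb => ha.mul hb) odd_one
          fun p hp => hodd p (hRS p hp)
      have hm0 : 0 < ∏ p ∈ R ∪ S, p := Finset.prod_pos fun p hp => (hP p (hRS p hp)).1.pos
      have hqm : ¬ q ∣ ∏ p ∈ R ∪ S, p := by
        intro h
        obtain ⟨p, hp, hqp'⟩ := (Prime.dvd_finset_prod_iff hqp.prime _).1 h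
        have := (Nat.prime_dvd_prime_iff_eq hqp (hP p (hRS p hp)).1).1 hqp'
        exact hqn (this ▸ hp)
      have hSm : (∏ p ∈ S, p) ∣ ∏ p ∈ R ∪ S, p :=
        Finset.prod_dvd_prod_of_subset _ _ _ Finset.subset_union_right
      have hn := nrm hdlg ms α (aq q) (∏ p ∈ R ∪ S, p) (∏ p ∈ S, p) n q h1 hqH hqp hq2 hmodd hm0
        hqm hSm (pw (kk n q)) (hkk n q hqP)
      rw [Finset.prod_insert hqR, Finset.insert_union, Finset.prod_insert hqn, mul_comm q]
      have e : PowerSeries.C (α ^ (n + 3)) * (fc n S q * (∏ q ∈ R, fc n S q) * L (∏ p ∈ S, p)) -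
          elt ms α ((∏ p ∈ R ∪ S, p) * q) (∏ p ∈ S, p) n =
          fc n S q * (PowerSeries.C (α ^ (n + 3)) * ((∏ q ∈ R, fc n S q) * L (∏ p ∈ S, p)) -
            elt ms α (∏ p ∈ R ∪ S, p) (∏ p ∈ S, p) n) -
          (elt ms α ((∏ p ∈ R ∪ S, p) * q) (∏ p ∈ S, p) n -
            fc n S q * elt ms α (∏ p ∈ R ∪ S, p) (∏ p ∈ S, p) n) := by ring
      rw [e]
      exact dvd_sub (ih'.mul_left _) hn
  have hcongT : ∀ n (T S : Finset ℕ), (T : Set ℕ) ⊆ P → S ⊆ T →
      om n ∣ PowerSeries.C (α ^ (n + 3)) * (fac n T S * L (∏ p ∈ S, p)) -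
        elt ms α (∏ p ∈ T, p) (∏ p ∈ S, p) n := by
    intro n T S hT hS
    have h := hcong n (T \ S) S (fun x hx => hT (by
      rw [Finset.coe_sdiff] at hx; exact hx.1)) (fun x hx => hT (hS hx)) Finset.sdiff_disjoint
    rwa [Finset.sdiff_union_of_subset hS] at h
  have hmain := gen_lip (M := Fin (r + 1) → Z2) (P := P) ?_ ?_
    (fun T S => trn r (fac (r + T.card) T S * L (∏ p ∈ S, p))) ?_ ?_ hv
  · have e : (fun S : Finset ℕ => sz v (trn r (fac (r + S.card) S S * L (∏ p ∈ S, p)))) =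
        fun S => sz v (trn r (L (∏ p ∈ S, p))) := by
      funext S
      have : fac (r + S.card) S S = 1 := by
        change ∏ q ∈ S \ S, fc (r + S.card) S q = 1
        rw [Finset.sdiff_self, Finset.prod_empty]
      rw [this, one_mul]
    rw [e] at hmain
    exact hmain
  · intro m h
    rcases smul_eq_zero.1 h with h | h
    · norm_num at h
    · exact h
  · intro m h
    refine nd m fun h0 => h 1 one_pos ?_
    rw [h0, smul_zero]
  · intro T hT C U hC hU hd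
    set n := r + T.card with hn
    obtain ⟨Q, hQ⟩ := elt_cube ms α (∏ p ∈ T, p) n hd
      (fun p hp => (hP p (hT (hC hp))).1.ne_zero)
      (fun p hp => ⟨(hP p (hT (hU hp))).1, Finset.dvd_prod_of_mem _ (hU hp)⟩)
    have hdiv : om n ∣ PowerSeries.C (α ^ (n + 3)) *
        ∑ S ∈ U.powerset, ((-1 : ℤ) ^ S.card) • (fac n T (C ∪ S) * L (∏ p ∈ C ∪ S, p)) -
        ∑ S ∈ U.powerset, ((-1 : ℤ) ^ S.card) • elt ms α (∏ p ∈ T, p) (∏ p ∈ C ∪ S, p) n := by
      rw [Finset.mul_sum, ← Finset.sum_sub_distrib]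
      refine Finset.dvd_sum fun S hS => ?_
      rw [mul_smul_comm, ← smul_sub, zsmul_eq_mul]
      exact (hcongT n T (C ∪ S) hT (Finset.union_subset hC
        ((Finset.mem_powerset.1 hS).trans hU))).mul_left _
    obtain ⟨f, hf⟩ := hdiv
    rw [hQ, sub_eq_iff_eq_add] at hf
    have hf' := hf.trans (add_comm _ _)
    obtain ⟨q, hq⟩ := trn_dvd (r := r) hα hf' (by
      have := Finset.card_le_card hU
      omega)
    refine ⟨q, ?_⟩
    rw [← hq, map_sum]
    exact Finset.sum_congr rfl fun S _ => (map_zsmul _ _ _).symm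
  · intro T hT S hS k
    have e : fac (r + S.card) S S = 1 := by
      change ∏ q ∈ S \ S, fc (r + S.card) S q = 1
      rw [Finset.sdiff_self, Finset.prod_empty]
    change Dv (trn r (fac (r + T.card) T S * L (∏ p ∈ S, p))) k ↔
      Dv (trn r (fac (r + S.card) S S * L (∏ p ∈ S, p))) k
    rw [e, one_mul, dv_unit _ (hfac _ T S hT)]

end

end Pool.Agent.Lib.MP_72b84e_nt.Two
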