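import Mathlib

/-!
MP_72b84e_nt (helper73). The cyclotomic 2-adic `L`-functions of the quadratic twists of an elliptic
curve, from modular symbols.
-/

open Finset

namespace Pool.Agent.Lib.MP_72b84e_nt.Two

noncomputable section

/-- The power series with 2-adic integral coefficients. -/
abbrev Lam : Type := PowerSeries ℤ_[2]

/-- `(1 + T) ^ k` -/
def pw (k : ℕ) : Lam := (1 + PowerSeries.X) ^ k

/-- `(1 + T) ^ (2 ^ n) - 1` -/
def om (n : ℕ) : Lam := pw (2 ^ n) - 1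

/-- The logarithm of the odd number `a` to the base `5`: `a = 5 ^ l` or `a = - 5 ^ l` modulo
`2 ^ (n + 2)`; it matters modulo `2 ^ n`. -/
def dlog (n a : ℕ) : ℕ :=
  sInf {l : ℕ | (a : ZMod (2 ^ (n + 2))) = 5 ^ l ∨ (a : ZMod (2 ^ (n + 2))) = -5 ^ l}

/-- `(1 + T) ^ (log a)` -/
def ex (n a : ℕ) : Lam := pw (dlog n a)

/-- The 2-stabilised symbol: `α ms(x) - ms(2 x)`. -/
def stab (ms : ℚ → ℤ) (α : ℤ_[2]) (x : ℚ) : ℤ_[2] := α * (ms x : ℤ_[2]) - (ms (2 * x) : ℤ_[2])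

/-- The 2-adic element of level `n` for the quadratic character `(· / D)`: the sum of
`(a / D) (α ms(a / M) - ms(2 a / M)) (1 + T) ^ (log a)` over the `a` modulo `M = 2 ^ (n + 2) m`
prime to `M`; here `D` divides `m` (and `m = D` for the primitive element). -/
def elt (ms : ℚ → ℤ) (α : ℤ_[2]) (m D n : ℕ) : Lam :=
  ∑ a ∈ (Finset.range (2 ^ (n + 2) * m)).filter (fun a => a.Coprime (2 ^ (n + 2) * m)),
    ((jacobiSym a D : ℤ) : Lam) *
      PowerSeries.C (stab ms α ((a : ℚ) / ((2 ^ (n + 2) * m : ℕ) : ℚ))) * ex n a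

/-- `L` is the 2-adic `L`-function (Mazur, Tate, Teitelbaum) for the character `(· / D)`: the power
series whose class modulo `(1 + T) ^ (2 ^ n) - 1` is `α ^ (- n - 3)` times the element of level
`n`, for all `n`. -/
def IsL (ms : ℚ → ℤ) (α : ℤ_[2]) (D : ℕ) (L : Lam) : Prop :=
  ∀ n : ℕ, om n ∣ PowerSeries.C (α ^ (n + 3)) * L - elt ms α D D n

/-- The symbols are periodic and satisfy the Hecke relation for the prime `q`. -/
def Hecke (ms : ℚ → ℤ) (q : ℕ) (a : ℤ) : Prop :=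
  ∀ x : ℚ, ∑ j ∈ Finset.range q, ms ((x + j) / q) + ms (q * x) = a * ms x

/-! ### rows -/

/-- row DLG: facts about the logarithm -/
def DlgStatement : Prop :=
  (∀ n a b : ℕ, Odd a → Odd b → om n ∣ ex n (a * b) - ex n a * ex n b) ∧
  (∀ n a b : ℕ, (a : ZMod (2 ^ (n + 2))) = b → ex n a = ex n b) ∧
  (∀ n a : ℕ, Odd a → om n ∣ ex (n + 1) a - ex n a) ∧
  (∀ n a : ℕ, Odd a → ∃ g : Lam, om n ∣ ex n a * g - 1 ∧ ∃ k, g = pw k)

/-- row OMG: the coefficients of a multiple of `(1 + T) ^ (2 ^ n) - 1` -/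
def OmgStatement : Prop :=
  ∀ (n i : ℕ) (f : Lam), i ≤ n → (2 : ℤ_[2]) ^ (n - i) ∣ PowerSeries.coeff i (om n * f)

/-- row EXI: existence of the 2-adic `L`-function -/
def ExiStatement : Prop :=
  ∀ (ms : ℚ → ℤ) (α : ℤ_[2]) (a₂ : ℤ) (D : ℕ), (∀ x, ms (x + 1) = ms x) → Hecke ms 2 a₂ →
    IsUnit α → α ^ 2 - a₂ * α + 2 = 0 → Odd D → ∃ L, IsL ms α D L

/-- row NRM: the norm relation at a prime `q`, `u` an inverse of `(1 + T) ^ (log q)` -/
def NrmStatement : Prop :=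
  ∀ (ms : ℚ → ℤ) (α : ℤ_[2]) (a : ℤ) (m D n q : ℕ), (∀ x, ms (x + 1) = ms x) → Hecke ms q a →
    q.Prime → q ≠ 2 → Odd m → 0 < m → ¬ q ∣ m → D ∣ m → ∀ u : Lam, om n ∣ ex n q * u - 1 →
      om n ∣ elt ms α (m * q) D n -
        ((a : Lam) - ((jacobiSym q D : ℤ) : Lam) * (ex n q + u)) * elt ms α m D n

end

end Pool.Agent.Lib.MP_72b84e_nt.Two
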