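import Pool.Agent.Lib.MP_72b84e_nt.Two.Defs

/-!
MP_72b84e_nt, row DLG (helper94): facts about the logarithm to the base 5 of an odd number.
-/

set_option autoImplicit false

namespace Pool.Agent.Lib.MP_72b84e_nt.Two

open PowerSeries

/-- `5 ^ (2 ^ n) = 1 + 2 ^ (n + 2) * odd` -/
lemma five_pow (n : ℕ) : ∃ c : ℤ, (5 : ℤ) ^ (2 ^ n) = 1 + 2 ^ (n + 2) * (1 + 2 * c) := by
  induction n with
  | zero => exact ⟨0, by norm_num⟩
  | succ n ih =>
    obtain ⟨c, hc⟩ := ih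
    refine ⟨c + 2 ^ n * (1 + 2 * c) ^ 2, ?_⟩
    rw [pow_succ 2 n, pow_mul, hc]
    ring

/-- Every odd integer is `5 ^ l` or `- 5 ^ l` modulo `2 ^ (n + 2)`. -/
lemma exists_int (n : ℕ) (a : ℤ) (ha : Odd a) :
    ∃ l : ℕ, (2 : ℤ) ^ (n + 2) ∣ a - 5 ^ l ∨ (2 : ℤ) ^ (n + 2) ∣ a + 5 ^ l := by
  induction n with
  | zero =>
    refine ⟨0, ?_⟩
    obtain ⟨k, rfl⟩ := ha
    norm_num
    omega
  | succ n ih =>
    obtain ⟨l, hl⟩ := ih
    obtain ⟨c, hc⟩ := five_pow n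
    have h5 : Odd ((5 : ℤ) ^ l) := Odd.pow (by decide)
    obtain ⟨d, hd⟩ := h5
    rcases hl with ⟨k, hk⟩ | ⟨k, hk⟩
    · rcases Int.even_or_odd k with ⟨j, hj⟩ | ⟨j, hj⟩
      · exact ⟨l, Or.inl ⟨j, by rw [hk, hj]; ring⟩⟩
      · refine ⟨l + 2 ^ n, Or.inl ⟨j - d - c - 2 * c * d, ?_⟩⟩
        rw [pow_add 5, hc]
        have h1 : a = 5 ^ l + 2 ^ (n + 2) * (2 * j + 1) := by
          rw [← hj]
          linear_combination hk
        rw [h1, hd]
        ring
    · rcases Int.even_or_odd k with ⟨j, hj⟩ | ⟨j, hj⟩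
      · exact ⟨l, Or.inr ⟨j, by rw [hk, hj]; ring⟩⟩
      · refine ⟨l + 2 ^ n, Or.inr ⟨j + 1 + d + c + 2 * c * d, ?_⟩⟩
        rw [pow_add 5, hc]
        have h1 : a = -5 ^ l + 2 ^ (n + 2) * (2 * j + 1) := by
          rw [← hj]
          linear_combination hk
        rw [h1, hd]
        ring

/-- The set of logarithms. -/
def lset (n : ℕ) (z : ZMod (2 ^ (n + 2))) : Set ℕ := {l : ℕ | z = 5 ^ l ∨ z = -5 ^ l}

lemma dlog_def (n a : ℕ) : dlog n a = sInf (lset n (a : ZMod (2 ^ (n + 2)))) := rfl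

lemma lset_nonempty (n a : ℕ) (ha : Odd a) : (lset n (a : ZMod (2 ^ (n + 2)))).Nonempty := by
  have ha' : Odd (a : ℤ) := by exact_mod_cast ha
  obtain ⟨l, hl⟩ := exists_int n a ha'
  refine ⟨l, ?_⟩
  have key : ∀ z : ℤ, (2 : ℤ) ^ (n + 2) ∣ z → (z : ZMod (2 ^ (n + 2))) = 0 := by
    intro z hz
    rw [ZMod.intCast_zmod_eq_zero_iff_dvd]
    exact_mod_cast hz
  rcases hl with h | h
  · left
    have h1 := key _ h
    push_cast at h1
    exact sub_eq_zero.mp h1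
  · right
    have h1 := key _ h
    push_cast at h1
    exact eq_neg_of_add_eq_zero_left h1

lemma dlog_mem (n a : ℕ) (ha : Odd a) : dlog n a ∈ lset n (a : ZMod (2 ^ (n + 2))) := by
  rw [dlog_def]
  exact Nat.sInf_mem (lset_nonempty n a ha)

/-- `5 ^ k` is not `- 5 ^ l` modulo `4`. -/
lemma five_ne (n k l : ℕ) : (5 : ZMod (2 ^ (n + 2))) ^ k ≠ -5 ^ l := by
  intro h
  have hd : 4 ∣ 2 ^ (n + 2) := ⟨2 ^ n, by ring⟩
  have h1 := congrArg (ZMod.castHom hd (ZMod 4)) h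
  rw [map_pow, map_neg, map_pow, map_ofNat] at h1
  have h5 : (OfNat.ofNat 5 : ZMod 4) = 1 := by decide
  rw [h5, one_pow, one_pow] at h1
  revert h1
  decide

lemma fin5 (n : ℕ) : IsOfFinOrder (5 : ZMod (2 ^ (n + 2))) := by
  rw [← orderOf_pos_iff, ZMod.orderOf_five]
  positivity

lemma lset_modEq (n : ℕ) (z : ZMod (2 ^ (n + 2))) {k l : ℕ} (hk : k ∈ lset n z)
    (hl : l ∈ lset n z) : k ≡ l [MOD 2 ^ n] := by
  have key : (5 : ZMod (2 ^ (n + 2))) ^ k = 5 ^ l := by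
    rcases hk with hk | hk <;> rcases hl with hl | hl
    · rw [← hk, ← hl]
    · exact absurd (hk.symm.trans hl) (five_ne n k l)
    · exact absurd (hl.symm.trans hk) (five_ne n l k)
    · have h := hk.symm.trans hl
      exact neg_injective h
  have h := (fin5 n).pow_eq_pow_iff_modEq.mp key
  rwa [ZMod.orderOf_five] at h

/-- `(1 + T) ^ k` modulo `(1 + T) ^ (2 ^ n) - 1` depends on `k` modulo `2 ^ n`. -/
lemma pw_sub (n k l : ℕ) (h : k ≡ l [MOD 2 ^ n]) : om n ∣ pw k - pw l := by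
  have key : ∀ r q : ℕ, om n ∣ pw (r + 2 ^ n * q) - pw r := by
    intro r q
    have h1 : pw (r + 2 ^ n * q) - pw r = pw r * ((pw (2 ^ n)) ^ q - 1 ^ q) := by
      unfold pw
      rw [pow_add, pow_mul, one_pow]
      ring
    rw [h1]
    exact Dvd.dvd.mul_left (sub_dvd_pow_sub_pow (pw (2 ^ n)) 1 q) _
  have hk := key (k % 2 ^ n) (k / 2 ^ n)
  have hl := key (l % 2 ^ n) (l / 2 ^ n)
  rw [Nat.mod_add_div] at hk hl
  have e : k % 2 ^ n = l % 2 ^ n := h
  rw [← e] at hl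
  have h2 : pw k - pw l = (pw k - pw (k % 2 ^ n)) - (pw l - pw (k % 2 ^ n)) := by ring
  rw [h2]
  exact dvd_sub hk hl

/-- row DLG -/
theorem dlg : DlgStatement := by
  refine ⟨?_, ?_, ?_, ?_⟩
  · intro n a b ha hb
    have h1 := dlog_mem n a ha
    have h2 := dlog_mem n b hb
    have h3 := dlog_mem n (a * b) (ha.mul hb)
    have h4 : dlog n a + dlog n b ∈ lset n ((a * b : ℕ) : ZMod (2 ^ (n + 2))) := by
      show ((a * b : ℕ) : ZMod (2 ^ (n + 2))) = 5 ^ (dlog n a + dlog n b) ∨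
        ((a * b : ℕ) : ZMod (2 ^ (n + 2))) = -5 ^ (dlog n a + dlog n b)
      rw [Nat.cast_mul, pow_add (5 : ZMod (2 ^ (n + 2)))]
      rcases h1 with h1 | h1 <;> rcases h2 with h2 | h2
      · left
        rw [← h1, ← h2]
      · right
        rw [← mul_neg, ← h1, ← h2]
      · right
        rw [← neg_mul, ← h1, ← h2]
      · left
        rw [h1, h2, neg_mul_neg]
    have h5 := lset_modEq n _ h3 h4
    have h6 := pw_sub n _ _ h5
    have h7 : pw (dlog n a + dlog n b) = pw (dlog n a) * pw (dlog n b) := by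
      unfold pw
      rw [pow_add]
    rw [h7] at h6
    exact h6
  · intro n a b h
    unfold ex
    rw [dlog_def, dlog_def, h]
  · intro n a ha
    apply pw_sub
    have h1 := dlog_mem (n + 1) a ha
    have h2 := dlog_mem n a ha
    refine lset_modEq n _ ?_ h2
    have hd : 2 ^ (n + 2) ∣ 2 ^ (n + 1 + 2) := pow_dvd_pow 2 (by omega)
    rcases h1 with h1 | h1
    · left
      have h3 := congrArg (ZMod.castHom hd (ZMod (2 ^ (n + 2)))) h1
      rw [map_natCast, map_pow, map_ofNat] at h3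
      exact h3
    · right
      have h3 := congrArg (ZMod.castHom hd (ZMod (2 ^ (n + 2)))) h1
      rw [map_natCast, map_neg, map_pow, map_ofNat] at h3
      exact h3
  · intro n a _
    refine ⟨pw ((2 ^ n - 1) * dlog n a), ?_, _, rfl⟩
    have h1 : ex n a * pw ((2 ^ n - 1) * dlog n a) = pw (2 ^ n * dlog n a) := by
      unfold ex pw
      rw [← pow_add]
      congr 1
      have h2 : 1 ≤ 2 ^ n := Nat.one_le_two_pow
      obtain ⟨m, hm⟩ := Nat.exists_eq_add_of_le h2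
      rw [hm, Nat.add_sub_cancel_left]
      ring
    have h3 : (1 : Lam) = pw 0 := by
      unfold pw
      rw [pow_zero]
    rw [h1, h3]
    apply pw_sub
    exact (Nat.modEq_zero_iff_dvd).mpr (dvd_mul_right _ _)

end Pool.Agent.Lib.MP_72b84e_nt.Two
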