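import Pool.Agent.Lib.MP_72b84e_nt.Two.DlpPDefs

/-! MP_72b84e_nt, row EXP (helper94): the logarithm modulo the powers of an odd prime `p`,
coefficients of the multiples of `(1 + T) ^ (p ^ n) - 1`, uniqueness of the `p`-adic
`L`-function. -/

set_option autoImplicit false

namespace Pool.Agent.Lib.MP_72b84e_nt.Two

section

variable {p : ℕ} [hpF : Fact p.Prime]

lemma cop_pred (n : ℕ) : (p ^ n).Coprime (p - 1) := by
  have hp := hpF.out
  have h2 := hp.two_le
  refine Nat.Coprime.pow_left n ((Nat.Prime.coprime_iff_not_dvd hp).2 fun h => ?_)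
  have := Nat.le_of_dvd (by omega) h
  omega

/-- The set of the logarithms. -/
def lsetp (p n : ℕ) (z : ZMod (p ^ (n + 1))) : Set ℕ :=
  {l : ℕ | z ^ (p - 1) = ((1 + p) ^ l) ^ (p - 1)}

lemma dlogp_def (n a : ℕ) : dlogp p n a = sInf (lsetp p n (a : ZMod (p ^ (n + 1)))) := rfl

lemma lsetp_unit (hp2 : p ≠ 2) (n : ℕ) (u : (ZMod (p ^ (n + 1)))ˣ) :
    (lsetp p n (u : ZMod (p ^ (n + 1)))).Nonempty := by
  have hp := hpF.out
  have : NeZero (p ^ (n + 1)) := ⟨pow_ne_zero _ hp.ne_zero⟩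
  have hcyc : IsCyclic (ZMod (p ^ (n + 1)))ˣ := ZMod.isCyclic_units_of_prime_pow p hp hp2 (n + 1)
  have hord := ZMod.orderOf_one_add_prime hp hp2 n
  have hfin : IsOfFinOrder (1 + p : ZMod (p ^ (n + 1))) := by
    rw [← orderOf_pos_iff, hord]
    exact pow_pos hp.pos n
  obtain ⟨g, hg⟩ := hfin.isUnit
  have hgo : orderOf g = p ^ n := by rw [← orderOf_units, hg, hord]
  have hcard : Nat.card (ZMod (p ^ (n + 1)))ˣ = p ^ n * (p - 1) := by
    rw [Nat.card_eq_fintype_card, ZMod.card_units_eq_totient, Nat.totient_prime_pow_succ hp]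
  set H := (powMonoidHom (p ^ n) : (ZMod (p ^ (n + 1)))ˣ →* (ZMod (p ^ (n + 1)))ˣ).ker with hH
  have hHc : Nat.card H = p ^ n := by
    rw [hH, IsCyclic.card_powMonoidHom_ker, hcard]
    exact Nat.gcd_eq_right (dvd_mul_right _ _)
  have hle : Subgroup.zpowers g ≤ H := by
    rw [Subgroup.zpowers_le, hH, MonoidHom.mem_ker, powMonoidHom_apply, ← hgo]
    exact pow_orderOf_eq_one g
  have heq : Subgroup.zpowers g = H := by
    apply Subgroup.eq_of_le_of_card_ge hle
    rw [Nat.card_zpowers, hgo, hHc]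
  have hu : u ^ (p - 1) ∈ H := by
    rw [hH, MonoidHom.mem_ker, powMonoidHom_apply, ← pow_mul, mul_comm, ← hcard]
    exact pow_card_eq_one'
  have hcop : (Nat.card H).Coprime (p - 1) := by
    rw [hHc]
    exact cop_pred n
  obtain ⟨x, hx⟩ := (powCoprime hcop).surjective ⟨u ^ (p - 1), hu⟩
  rw [powCoprime_apply] at hx
  have hxH : (x : (ZMod (p ^ (n + 1)))ˣ) ∈ Subgroup.zpowers g := by
    rw [heq]
    exact x.2
  rw [← mem_powers_iff_mem_zpowers, Submonoid.mem_powers_iff] at hxH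
  obtain ⟨l, hl⟩ := hxH
  refine ⟨l, ?_⟩
  have h1 : (x : (ZMod (p ^ (n + 1)))ˣ) ^ (p - 1) = u ^ (p - 1) := by
    have h := congrArg Subtype.val hx
    exact h
  rw [← hl] at h1
  have h2 := congrArg Units.val h1
  rw [Units.val_pow_eq_pow_val, Units.val_pow_eq_pow_val, Units.val_pow_eq_pow_val, hg] at h2
  exact h2.symm

lemma dlogp_mem (hp2 : p ≠ 2) (n a : ℕ) (ha : ¬ p ∣ a) :
    dlogp p n a ∈ lsetp p n (a : ZMod (p ^ (n + 1))) := by
  have hp := hpF.out
  have hc : a.Coprime (p ^ (n + 1)) :=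
    (((Nat.Prime.coprime_iff_not_dvd hp).2 ha).symm).pow_right (n + 1)
  rw [dlogp_def]
  apply Nat.sInf_mem
  have h := lsetp_unit hp2 n (ZMod.unitOfCoprime a hc)
  rwa [ZMod.coe_unitOfCoprime] at h

lemma lsetp_modEq (hp2 : p ≠ 2) (n : ℕ) (z : ZMod (p ^ (n + 1))) {k l : ℕ}
    (hk : k ∈ lsetp p n z) (hl : l ∈ lsetp p n z) : k ≡ l [MOD p ^ n] := by
  have hp := hpF.out
  have hord := ZMod.orderOf_one_add_prime hp hp2 n
  have hfin : IsOfFinOrder (1 + p : ZMod (p ^ (n + 1))) := by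
    rw [← orderOf_pos_iff, hord]
    exact pow_pos hp.pos n
  have h1 : ((1 + p : ZMod (p ^ (n + 1))) ^ (p - 1)) ^ k = ((1 + p) ^ (p - 1)) ^ l := by
    rw [← pow_mul, ← pow_mul, mul_comm (p - 1) k, mul_comm (p - 1) l, pow_mul, pow_mul]
    exact hk.symm.trans hl
  have hord' : orderOf ((1 + p : ZMod (p ^ (n + 1))) ^ (p - 1)) = p ^ n := by
    rw [Nat.Coprime.orderOf_pow, hord]
    rw [hord]
    exact cop_pred n
  have h2 := (hfin.pow (n := p - 1)).pow_eq_pow_iff_modEq.mp h1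
  rwa [hord'] at h2

/-- `(1 + T) ^ k` modulo `(1 + T) ^ m - 1` depends on `k` modulo `m`. -/
lemma powX_sub {R : Type} [CommRing R] (m k l : ℕ) (h : k ≡ l [MOD m]) :
    ((1 + PowerSeries.X) ^ m - 1 : PowerSeries R) ∣
      (1 + PowerSeries.X) ^ k - (1 + PowerSeries.X) ^ l := by
  have key : ∀ r q : ℕ, ((1 + PowerSeries.X) ^ m - 1 : PowerSeries R) ∣
      (1 + PowerSeries.X) ^ (r + m * q) - (1 + PowerSeries.X) ^ r := by
    intro r q
    have h1 : ((1 + PowerSeries.X) ^ (r + m * q) - (1 + PowerSeries.X) ^ r : PowerSeries R) =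
        (1 + PowerSeries.X) ^ r * (((1 + PowerSeries.X) ^ m) ^ q - 1 ^ q) := by
      rw [pow_add, pow_mul, one_pow]
      ring
    rw [h1]
    exact Dvd.dvd.mul_left (sub_dvd_pow_sub_pow _ 1 q) _
  have hk := key (k % m) (k / m)
  have hl := key (l % m) (l / m)
  rw [Nat.mod_add_div] at hk hl
  have e : k % m = l % m := h
  rw [← e] at hl
  have h2 : ((1 + PowerSeries.X) ^ k - (1 + PowerSeries.X) ^ l : PowerSeries R) =
      ((1 + PowerSeries.X) ^ k - (1 + PowerSeries.X) ^ (k % m)) -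
        ((1 + PowerSeries.X) ^ l - (1 + PowerSeries.X) ^ (k % m)) := by ring
  rw [h2]
  exact dvd_sub hk hl

/-- the facts about the logarithm -/
theorem dlp (hp2 : p ≠ 2) : DlpStatement p := by
  refine ⟨?_, ?_⟩
  · intro n a b h
    rw [dlogp_def, dlogp_def, h]
  · intro n a ha
    apply powX_sub
    have h1 := dlogp_mem hp2 (n + 1) a ha
    have h2 := dlogp_mem hp2 n a ha
    refine lsetp_modEq hp2 n _ ?_ h2
    have hd : p ^ (n + 1) ∣ p ^ (n + 1 + 1) := pow_dvd_pow p (by omega)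
    have h3 := congrArg (ZMod.castHom hd (ZMod (p ^ (n + 1)))) h1
    rw [map_pow, map_natCast, map_pow, map_pow, map_add, map_one, map_natCast] at h3
    exact h3

lemma choose_dvdp (n i j : ℕ) (hj : j ≤ i) (hi : i ≤ n) (h0 : 0 < j) :
    p ^ (n - i) ∣ Nat.choose (p ^ n) j := by
  have hp := hpF.out
  obtain ⟨v, u, hu, hjv⟩ := Nat.exists_eq_pow_mul_and_not_dvd h0.ne' p hp.ne_one
  have hu0 : 0 < u := by
    rcases Nat.eq_zero_or_pos u with h | h
    · rw [h] at hu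
      exact absurd (dvd_zero p) hu
    · exact h
  have hv : v < j := by
    have h1 : v < p ^ v := Nat.lt_pow_self hp.one_lt
    have h2 : p ^ v ≤ j := by
      rw [hjv]
      exact Nat.le_mul_of_pos_right _ hu0
    omega
  have h1 : p ^ n ∣ j * Nat.choose (p ^ n) j := by
    obtain ⟨N, hN⟩ := Nat.exists_eq_succ_of_ne_zero (pow_ne_zero n hp.ne_zero)
    obtain ⟨t, ht⟩ := Nat.exists_eq_succ_of_ne_zero h0.ne'
    rw [hN, ht, Nat.succ_eq_add_one, Nat.succ_eq_add_one, mul_comm, ← Nat.add_one_mul_choose_eq]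
    exact dvd_mul_right _ _
  have hn : n = v + (n - v) := by omega
  have h2 : p ^ v * p ^ (n - v) ∣ p ^ v * (u * Nat.choose (p ^ n) j) := by
    rw [← pow_add, ← hn, ← mul_assoc, ← hjv]
    exact h1
  have h3 : p ^ (n - v) ∣ u * Nat.choose (p ^ n) j :=
    (Nat.mul_dvd_mul_iff_left (pow_pos hp.pos v)).mp h2
  have h4 : Nat.Coprime (p ^ (n - v)) u :=
    Nat.Coprime.pow_left _ ((Nat.Prime.coprime_iff_not_dvd hp).2 hu)
  exact (pow_dvd_pow p (by omega)).trans (h4.dvd_of_dvd_mul_left h3)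

lemma coeff_powX (k j : ℕ) :
    PowerSeries.coeff j ((1 + PowerSeries.X) ^ k : PowerSeries ℤ_[p]) = (Nat.choose k j : ℤ_[p]) := by
  have h : ((1 + PowerSeries.X) ^ k : PowerSeries ℤ_[p]) =
      (((1 + Polynomial.X) ^ k : Polynomial ℤ_[p]) : PowerSeries ℤ_[p]) := by
    rw [Polynomial.coe_pow, Polynomial.coe_add, Polynomial.coe_one, Polynomial.coe_X]
  rw [h, Polynomial.coeff_coe, Polynomial.coeff_one_add_X_pow]

/-- the coefficients of a multiple of `(1 + T) ^ (p ^ n) - 1` -/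
theorem omp : OmpStatement p := by
  intro n i f hi
  rw [PowerSeries.coeff_mul]
  refine Finset.dvd_sum fun x hx => ?_
  have hx1 : x.1 ≤ i := by
    have := Finset.HasAntidiagonal.mem_antidiagonal.mp hx
    omega
  refine Dvd.dvd.mul_right ?_ _
  rw [map_sub, coeff_powX, PowerSeries.coeff_one]
  split_ifs with h0
  · rw [h0, Nat.choose_zero_right, Nat.cast_one, sub_self]
    exact dvd_zero _
  · rw [sub_zero]
    have h := choose_dvdp (p := p) n i x.1 hx1 hi (Nat.pos_of_ne_zero h0)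
    exact_mod_cast (Nat.cast_dvd_cast (α := ℤ_[p]) h)

/-- A `p`-adic integer divisible by all powers of `p` is `0`. -/
lemma zero_of_pow_dvdp (x : ℤ_[p]) (h : ∀ k : ℕ, (p : ℤ_[p]) ^ k ∣ x) : x = 0 := by
  by_contra hx
  have h2 : ¬ IsUnit (p : ℤ_[p]) := (PadicInt.prime_p (p := p)).not_isUnit
  obtain ⟨n, hn⟩ := FiniteMultiplicity.of_not_isUnit h2 hx
  exact hn (h (n + 1))

/-- The ideals generated by the `(1 + T) ^ (p ^ n) - 1` have intersection `0`. -/
theorem omp_inter (f : PowerSeries ℤ_[p])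
    (h : ∀ n : ℕ, ((1 + PowerSeries.X) ^ p ^ n - 1 : PowerSeries ℤ_[p]) ∣ f) : f = 0 := by
  ext i
  rw [map_zero]
  refine zero_of_pow_dvdp _ fun k => ?_
  obtain ⟨g, hg⟩ := h (i + k)
  have h1 := omp (p := p) (i + k) i g (Nat.le_add_right i k)
  rw [Nat.add_sub_cancel_left, ← hg] at h1
  exact h1

/-- The `p`-adic `L`-function is unique. -/
theorem isLp_unique {ms : ℚ → ℤ} {α : ℤ_[p]} (hα : IsUnit α) {D : ℕ}
    {L L' : PowerSeries ℤ_[p]} (h : IsLp p ms α D L) (h' : IsLp p ms α D L') : L = L' := by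
  rw [← sub_eq_zero]
  refine omp_inter _ fun n => ?_
  have hu : IsUnit (PowerSeries.C (α ^ (n + 2)) : PowerSeries ℤ_[p]) :=
    (hα.pow _).map PowerSeries.C
  have h1 := dvd_sub (h n) (h' n)
  rw [sub_sub_sub_cancel_right, ← mul_sub] at h1
  exact (hu.dvd_mul_left).mp h1

end

end Pool.Agent.Lib.MP_72b84e_nt.Two
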