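import Pool.Agent.Lib.MP_72b84e_nt.Two.AllP

/-! MP_72b84e_nt, row EXP (helper94): the logarithm modulo powers of an odd prime, statements. -/

set_option autoImplicit false

namespace Pool.Agent.Lib.MP_72b84e_nt.Two

/-- Facts about the logarithm modulo the powers of `p`. -/
def DlpStatement (p : ℕ) [Fact p.Prime] : Prop :=
  (∀ n a b : ℕ, (a : ZMod (p ^ (n + 1))) = b → dlogp p n a = dlogp p n b) ∧
  (∀ n a : ℕ, ¬ p ∣ a → ((1 + PowerSeries.X) ^ p ^ n - 1 : PowerSeries ℤ_[p]) ∣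
    (1 + PowerSeries.X) ^ dlogp p (n + 1) a - (1 + PowerSeries.X) ^ dlogp p n a)

/-- The coefficients of a multiple of `(1 + T) ^ (p ^ n) - 1`. -/
def OmpStatement (p : ℕ) [Fact p.Prime] : Prop :=
  ∀ (n i : ℕ) (f : PowerSeries ℤ_[p]), i ≤ n →
    (p : ℤ_[p]) ^ (n - i) ∣ PowerSeries.coeff i (((1 + PowerSeries.X) ^ p ^ n - 1) * f)

end Pool.Agent.Lib.MP_72b84e_nt.Two
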