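import Pool.Agent.Lib.MP_72b84e_nt.Two.Defs

/-!
MP_72b84e_nt (helper87), row EXI: existence of the 2-adic `L`-function. The elements are compatible,
and the power series ring over the 2-adic integers is compact.
-/

set_option autoImplicit false

open Finset

namespace Pool.Agent.Lib.MP_72b84e_nt.Two

noncomputable section

theorem om_succ (n : ℕ) : om n ∣ om (n + 1) := by
  refine ⟨pw (2 ^ n) + 1, ?_⟩
  unfold om pw
  rw [pow_succ 2 n, pow_mul]
  ring

theorem cop_iff (k a D : ℕ) : a.Coprime (2 ^ (k + 2) * D) ↔ a.Coprime 2 ∧ a.Coprime D := by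
  rw [Nat.coprime_mul_iff_right, Nat.coprime_pow_right_iff (by omega)]

theorem stab_rel (ms : ℚ → ℤ) (α : ℤ_[2]) (a₂ : ℤ) (h1 : ∀ x, ms (x + 1) = ms x)
    (h2 : Hecke ms 2 a₂) (hα : α ^ 2 - a₂ * α + 2 = 0) (x : ℚ) :
    stab ms α (x / 2) + stab ms α ((x + 1) / 2) = α * stab ms α x := by
  have e := h2 x
  simp only [Finset.sum_range_succ, Finset.sum_range_zero, Nat.cast_zero, add_zero, zero_add,
    Nat.cast_one, Nat.cast_ofNat] at e
  have e' : ((ms (x / 2) : ℤ) : ℤ_[2]) + ms ((x + 1) / 2) + ms (2 * x) = a₂ * ms x := by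
    exact_mod_cast e
  have e1 : ms (2 * (x / 2)) = ms x := by congr 1; ring
  have e2 : ms (2 * ((x + 1) / 2)) = ms x := by
    rw [show 2 * ((x + 1) / 2) = x + 1 by ring, h1]
  unfold stab
  rw [e1, e2]
  linear_combination α * e' - (ms x : ℤ_[2]) * hα

/-- Compatibility of the elements of the levels `n + 1` and `n`. -/
theorem elt_succ (hd : DlgStatement) (ms : ℚ → ℤ) (α : ℤ_[2]) (a₂ : ℤ) (D : ℕ)
    (h1 : ∀ x, ms (x + 1) = ms x) (h2 : Hecke ms 2 a₂) (hα : α ^ 2 - a₂ * α + 2 = 0)
    (hD : 0 < D) (n : ℕ) :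
    om n ∣ elt ms α D D (n + 1) - PowerSeries.C α * elt ms α D D n := by
  set M : ℕ := 2 ^ (n + 2) * D with hM
  have hM2 : 2 ^ (n + 1 + 2) * D = M + M := by rw [hM]; ring
  have hM0 : 0 < M := by positivity
  have hMq : (M : ℚ) ≠ 0 := by positivity
  have hcop1 : ∀ a : ℕ, a.Coprime (M + M) ↔ a.Coprime M := by
    intro a
    rw [← hM2, cop_iff, hM, cop_iff]
  have hcop2 : ∀ a : ℕ, (M + a).Coprime M ↔ a.Coprime M := by
    intro a
    simp
  unfold elt
  rw [hM2, Finset.sum_filter, Finset.sum_filter, Finset.sum_range_add, Finset.mul_sum,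
    ← Finset.sum_add_distrib, ← Finset.sum_sub_distrib]
  refine Finset.dvd_sum (fun a _ => ?_)
  simp only [hcop1, hcop2]
  split_ifs with hc
  · have hodd : Odd a := by
      rw [hM, cop_iff] at hc
      rw [← Nat.coprime_two_right]
      exact hc.1
    have hoddM : Odd (M + a) := by
      have : Even M := by
        rw [hM, pow_succ]
        exact ⟨2 ^ (n + 1) * D, by ring⟩
      exact this.add_odd hodd
    have hJ : jacobiSym ((M + a : ℕ) : ℤ) D = jacobiSym (a : ℤ) D := by
      rw [jacobiSym.mod_left ((M + a : ℕ) : ℤ), jacobiSym.mod_left (a : ℤ)]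
      congr 1
      rw [hM]
      push_cast
      rw [Int.add_comm, Int.add_mul_emod_self_right]
    have hex : ex n (M + a) = ex n a := by
      refine hd.2.1 n _ _ ?_
      rw [hM]
      push_cast
      have : ((2 : ZMod (2 ^ (n + 2))) ^ (n + 2)) = 0 := by
        have h := ZMod.natCast_self (2 ^ (n + 2))
        push_cast at h
        exact h
      rw [this]
      ring
    obtain ⟨g1, hg1⟩ := hd.2.2.1 n a hodd
    obtain ⟨g2, hg2⟩ := hd.2.2.1 n (M + a) hoddM
    rw [hJ]
    have hs : PowerSeries.C (stab ms α ((a : ℚ) / ((M + M : ℕ) : ℚ))) +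
        PowerSeries.C (stab ms α (((M + a : ℕ) : ℚ) / ((M + M : ℕ) : ℚ))) =
        PowerSeries.C α * (PowerSeries.C (stab ms α ((a : ℚ) / (M : ℚ))) : Lam) := by
      rw [← map_add, ← map_mul]
      congr 1
      rw [← stab_rel ms α a₂ h1 h2 hα]
      congr 2
      · push_cast
        field_simp
        ring
      · push_cast
        field_simp
        ring
    refine ⟨((jacobiSym (a : ℤ) D : ℤ) : Lam) *
      (PowerSeries.C (stab ms α ((a : ℚ) / ((M + M : ℕ) : ℚ))) * g1 +
       PowerSeries.C (stab ms α (((M + a : ℕ) : ℚ) / ((M + M : ℕ) : ℚ))) * g2), ?_⟩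
    rw [hex] at hg2
    linear_combination
      ((jacobiSym (a : ℤ) D : ℤ) : Lam) *
        PowerSeries.C (stab ms α ((a : ℚ) / ((M + M : ℕ) : ℚ))) * hg1 +
      ((jacobiSym (a : ℤ) D : ℤ) : Lam) *
        PowerSeries.C (stab ms α (((M + a : ℕ) : ℚ) / ((M + M : ℕ) : ℚ))) * hg2 +
      ((jacobiSym (a : ℤ) D : ℤ) : Lam) * ex n a * hs
  · simp

open scoped PowerSeries.WithPiTopology

theorem compact_lam : CompactSpace Lam :=
  inferInstanceAs (CompactSpace ((Unit →₀ ℕ) → ℤ_[2]))

/-- A sequence of power series compatible modulo the `(1 + T) ^ (2 ^ n) - 1` has a limit. -/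
theorem lim_exists (u : ℕ → Lam) (hu : ∀ n, om n ∣ u (n + 1) - u n) :
    ∃ L : Lam, ∀ n, om n ∣ L - u n := by
  have := compact_lam
  let K : ℕ → Set Lam := fun n => Set.range (fun g : Lam => u n + om n * g)
  have hcont : ∀ n, Continuous (fun g : Lam => u n + om n * g) := by
    intro n
    exact continuous_const.add (continuous_const.mul continuous_id)
  have hcomp : ∀ n, IsCompact (K n) := fun n => isCompact_range (hcont n)
  have h := IsCompact.nonempty_iInter_of_sequence_nonempty_isCompact_isClosed K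
    (by
      rintro n _ ⟨g, rfl⟩
      obtain ⟨c, hc⟩ := hu n
      obtain ⟨d, hd⟩ := om_succ n
      refine ⟨c + d * g, ?_⟩
      simp only
      rw [hd]
      linear_combination -hc)
    (fun n => Set.range_nonempty _) (hcomp 0) (fun n => (hcomp n).isClosed)
  obtain ⟨L, hL⟩ := h
  refine ⟨L, fun n => ?_⟩
  obtain ⟨g, hg⟩ := Set.mem_iInter.mp hL n
  exact ⟨g, by simp only at hg; rw [← hg]; ring⟩

theorem exi (hd : DlgStatement) : ExiStatement := by
  intro ms α a₂ D h1 h2 hu hα hD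
  obtain ⟨v, hv⟩ := hu.exists_right_inv
  have hD0 : 0 < D := hD.pos
  obtain ⟨L, hL⟩ := lim_exists
    (fun n => PowerSeries.C (v ^ (n + 3)) * elt ms α D D n) (by
      intro n
      obtain ⟨c, hc⟩ := elt_succ hd ms α a₂ D h1 h2 hα hD0 n
      refine ⟨PowerSeries.C (v ^ (n + 1 + 3)) * c, ?_⟩
      have e : (PowerSeries.C (v ^ (n + 3)) : Lam) =
          PowerSeries.C (v ^ (n + 1 + 3)) * PowerSeries.C α := by
        rw [← map_mul]
        congr 1
        rw [show n + 1 + 3 = n + 3 + 1 by ring, pow_succ v (n + 3)]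
        linear_combination -(v ^ (n + 3)) * hv
      rw [e]
      linear_combination PowerSeries.C (v ^ (n + 1 + 3)) * hc)
  refine ⟨L, fun n => ?_⟩
  obtain ⟨g, hg⟩ := hL n
  refine ⟨PowerSeries.C (α ^ (n + 3)) * g, ?_⟩
  have e : (PowerSeries.C (α ^ (n + 3)) : Lam) * PowerSeries.C (v ^ (n + 3)) = 1 := by
    rw [← map_mul, ← mul_pow, hv, one_pow, map_one]
  linear_combination PowerSeries.C (α ^ (n + 3)) * hg + elt ms α D D n * e

end

end Pool.Agent.Lib.MP_72b84e_nt.Two
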