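import Pool.Agent.Lib.MP_72b84e_nt.Two.AllP
import Pool.Agent.Lib.MP_72b84e_nt.Two.DlpPDefs

/-!
MP_72b84e_nt (helper87), row EXP: existence of the `p`-adic `L`-function (`DlpHyp p` holds for
odd `p`). The elements are compatible, and the power series ring over the `p`-adic integers is compact.
-/

set_option autoImplicit false

open Finset

namespace Pool.Agent.Lib.MP_72b84e_nt.Two

noncomputable section

section

variable {p : ℕ} [Fact p.Prime]

/-- The logarithms of the levels `n + 1` and `n` agree modulo `p ^ n`. -/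
def DlpHyp (p : ℕ) [Fact p.Prime] : Prop :=
  ∀ n a : ℕ, a.Coprime p →
    ((1 + PowerSeries.X) ^ p ^ n - 1 : PowerSeries ℤ_[p]) ∣
      (1 + PowerSeries.X) ^ dlogp p (n + 1) a - (1 + PowerSeries.X) ^ dlogp p n a

omit [Fact p.Prime] in
theorem dlogp_congr {n a b : ℕ} (h : (a : ZMod (p ^ (n + 1))) = b) :
    dlogp p n a = dlogp p n b := by
  unfold dlogp
  rw [h]

theorem omp_succ (p : ℕ) [Fact p.Prime] (n : ℕ) :
    ((1 + PowerSeries.X) ^ p ^ n - 1 : PowerSeries ℤ_[p]) ∣
      (1 + PowerSeries.X) ^ p ^ (n + 1) - 1 := by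
  have h : ((1 + PowerSeries.X) ^ p ^ (n + 1) : PowerSeries ℤ_[p]) =
      ((1 + PowerSeries.X) ^ p ^ n) ^ p := by
    rw [← pow_mul, pow_succ]
  rw [h]
  have h2 := sub_dvd_pow_sub_pow ((1 + PowerSeries.X : PowerSeries ℤ_[p]) ^ p ^ n) 1 p
  rwa [one_pow] at h2

theorem stabp_rel {ms : ℚ → ℤ} (h1 : ∀ x, ms (x + 1) = ms x) {a : ℤ} (hH : Hecke ms p a)
    {α : ℤ_[p]} (hα : α ^ 2 - a * α + p = 0) (x : ℚ) :
    ∑ j ∈ range p, stabp p ms α ((x + j) / p) = α * stabp p ms α x := by
  have hp : p.Prime := Fact.out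
  have hp0 : (p : ℚ) ≠ 0 := by exact_mod_cast hp.ne_zero
  have e := congrArg (fun z : ℤ => (z : ℤ_[p])) (hH x)
  simp only [Int.cast_add, Int.cast_sum, Int.cast_mul] at e
  have e2 : ∀ j ∈ range p, stabp p ms α ((x + j) / p) =
      α * ((ms ((x + j) / p) : ℤ) : ℤ_[p]) - (ms x : ℤ_[p]) := by
    intro j _
    unfold stabp
    have e3 : (p : ℚ) * ((x + j) / p) = x + j := by
      field_simp
    rw [e3, per_nat h1]
  rw [Finset.sum_congr rfl e2, Finset.sum_sub_distrib, ← Finset.mul_sum, Finset.sum_const,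
    Finset.card_range, nsmul_eq_mul]
  unfold stabp
  linear_combination α * e - (ms x : ℤ_[p]) * hα

/-- Compatibility of the elements of the levels `n + 1` and `n`. -/
theorem eltp_succ (hd : DlpHyp p) {ms : ℚ → ℤ} (h1 : ∀ x, ms (x + 1) = ms x) {a₀ : ℤ}
    (hH : Hecke ms p a₀) {α : ℤ_[p]} (hα : α ^ 2 - a₀ * α + p = 0) {D : ℕ} (hD : 0 < D)
    (n : ℕ) :
    ((1 + PowerSeries.X) ^ p ^ n - 1 : PowerSeries ℤ_[p]) ∣
      eltp p ms α D (n + 1) - PowerSeries.C α * eltp p ms α D n := by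
  have hp : p.Prime := Fact.out
  set M : ℕ := p ^ (n + 1) * D with hM
  have hMp : p ^ (n + 1 + 1) * D = M * p := by rw [hM]; ring
  have hM0 : 0 < M := by
    have := hp.pos
    positivity
  have hMq : (M : ℚ) ≠ 0 := by positivity
  have hpq : (p : ℚ) ≠ 0 := by exact_mod_cast hp.ne_zero
  have hpM : p ∣ M := Dvd.dvd.mul_right (dvd_pow_self p (by omega)) D
  have hcop : ∀ j a : ℕ, (M * j + a).Coprime (M * p) ↔ a.Coprime M := by
    intro j a
    constructor
    · intro h
      have h2 : (M * j + a).Coprime M := Nat.Coprime.coprime_dvd_right (dvd_mul_right _ _) h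
      rwa [add_comm, Nat.coprime_add_mul_left_left] at h2
    · intro h
      have h2 : (M * j + a).Coprime M := by
        rw [add_comm, Nat.coprime_add_mul_left_left]
        exact h
      exact Nat.Coprime.mul_right h2 (Nat.Coprime.coprime_dvd_right hpM h2)
  unfold eltp
  rw [hMp, Finset.sum_filter, Finset.sum_filter, sum_blocks, Finset.sum_comm, Finset.mul_sum,
    ← Finset.sum_sub_distrib]
  refine Finset.dvd_sum (fun a _ => ?_)
  simp only [hcop]
  split_ifs with hc
  · have hca : a.Coprime p := Nat.Coprime.coprime_dvd_right hpM hc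
    have hcj : ∀ j : ℕ, (M * j + a).Coprime p := by
      intro j
      exact Nat.Coprime.coprime_dvd_right (dvd_mul_left p M) ((hcop j a).2 hc)
    have hJ : ∀ j : ℕ, jacobiSym ((M * j + a : ℕ) : ℤ) D = jacobiSym (a : ℤ) D := by
      intro j
      apply jacobiSym.mod_left'
      rw [hM]
      push_cast
      rw [show ((p : ℤ) ^ (n + 1) * D * j + a) = a + D * ((p : ℤ) ^ (n + 1) * j) by ring]
      exact Int.add_mul_emod_self_left _ _ _
    have hex : ∀ j : ℕ, dlogp p n (M * j + a) = dlogp p n a := by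
      intro j
      apply dlogp_congr
      rw [hM]
      push_cast
      have : ((p : ZMod (p ^ (n + 1))) ^ (n + 1)) = 0 := by
        have h := ZMod.natCast_self (p ^ (n + 1))
        push_cast at h
        exact h
      rw [this]
      ring
    have hs : ∑ j ∈ range p,
        (PowerSeries.C (stabp p ms α (((M * j + a : ℕ) : ℚ) / ((M * p : ℕ) : ℚ))) :
          PowerSeries ℤ_[p]) =
        PowerSeries.C α * PowerSeries.C (stabp p ms α ((a : ℚ) / (M : ℚ))) := by
      rw [← map_mul, ← stabp_rel h1 hH hα, map_sum]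
      refine Finset.sum_congr rfl fun j _ => ?_
      congr 2
      push_cast
      field_simp
      ring
    have e : (∑ j ∈ range p, ((jacobiSym ((M * j + a : ℕ) : ℤ) D : ℤ) : PowerSeries ℤ_[p]) *
          PowerSeries.C (stabp p ms α (((M * j + a : ℕ) : ℚ) / ((M * p : ℕ) : ℚ))) *
          (1 + PowerSeries.X) ^ dlogp p (n + 1) (M * j + a)) -
        PowerSeries.C α * (((jacobiSym (a : ℤ) D : ℤ) : PowerSeries ℤ_[p]) *
          PowerSeries.C (stabp p ms α ((a : ℚ) / (M : ℚ))) *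
          (1 + PowerSeries.X) ^ dlogp p n a) =
        ∑ j ∈ range p, ((jacobiSym (a : ℤ) D : ℤ) : PowerSeries ℤ_[p]) *
          PowerSeries.C (stabp p ms α (((M * j + a : ℕ) : ℚ) / ((M * p : ℕ) : ℚ))) *
          ((1 + PowerSeries.X) ^ dlogp p (n + 1) (M * j + a) -
            (1 + PowerSeries.X) ^ dlogp p n (M * j + a)) := by
      have e2 : PowerSeries.C α * (((jacobiSym (a : ℤ) D : ℤ) : PowerSeries ℤ_[p]) *
          PowerSeries.C (stabp p ms α ((a : ℚ) / (M : ℚ))) *
          (1 + PowerSeries.X) ^ dlogp p n a) =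
          ∑ j ∈ range p, ((jacobiSym (a : ℤ) D : ℤ) : PowerSeries ℤ_[p]) *
            PowerSeries.C (stabp p ms α (((M * j + a : ℕ) : ℚ) / ((M * p : ℕ) : ℚ))) *
            (1 + PowerSeries.X) ^ dlogp p n a := by
        rw [← Finset.sum_mul, ← Finset.mul_sum, hs]
        ring
      rw [e2, ← Finset.sum_sub_distrib]
      refine Finset.sum_congr rfl fun j _ => ?_
      rw [hJ, hex]
      ring
    rw [e]
    refine Finset.dvd_sum (fun j _ => ?_)
    exact Dvd.dvd.mul_left (hd n (M * j + a) (hcj j)) _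
  · simp

open scoped PowerSeries.WithPiTopology

theorem compact_ps (p : ℕ) [Fact p.Prime] : CompactSpace (PowerSeries ℤ_[p]) :=
  inferInstanceAs (CompactSpace ((Unit →₀ ℕ) → ℤ_[p]))

/-- A sequence of power series compatible modulo the `(1 + T) ^ (p ^ n) - 1` has a limit. -/
theorem lim_existsp (u : ℕ → PowerSeries ℤ_[p])
    (hu : ∀ n, ((1 + PowerSeries.X) ^ p ^ n - 1 : PowerSeries ℤ_[p]) ∣ u (n + 1) - u n) :
    ∃ L : PowerSeries ℤ_[p],
      ∀ n, ((1 + PowerSeries.X) ^ p ^ n - 1 : PowerSeries ℤ_[p]) ∣ L - u n := by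
  have := compact_ps p
  let K : ℕ → Set (PowerSeries ℤ_[p]) := fun n =>
    Set.range (fun g : PowerSeries ℤ_[p] => u n + ((1 + PowerSeries.X) ^ p ^ n - 1) * g)
  have hcont : ∀ n, Continuous (fun g : PowerSeries ℤ_[p] =>
      u n + ((1 + PowerSeries.X) ^ p ^ n - 1) * g) := by
    intro n
    exact continuous_const.add (continuous_const.mul continuous_id)
  have hcomp : ∀ n, IsCompact (K n) := fun n => isCompact_range (hcont n)
  have h := IsCompact.nonempty_iInter_of_sequence_nonempty_isCompact_isClosed K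
    (by
      rintro n _ ⟨g, rfl⟩
      obtain ⟨c, hc⟩ := hu n
      obtain ⟨d, hd⟩ := omp_succ p n
      refine ⟨c + d * g, ?_⟩
      simp only
      rw [hd]
      linear_combination -hc)
    (fun n => Set.range_nonempty _) (hcomp 0) (fun n => (hcomp n).isClosed)
  obtain ⟨L, hL⟩ := h
  refine ⟨L, fun n => ?_⟩
  obtain ⟨g, hg⟩ := Set.mem_iInter.mp hL n
  exact ⟨g, by simp only at hg; rw [← hg]; ring⟩

/-- Existence of the `p`-adic `L`-function. -/
theorem exip (hd : DlpHyp p) {ms : ℚ → ℤ} (h1 : ∀ x, ms (x + 1) = ms x) {α : ℤ_[p]}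
    (hu : IsUnit α) {a : ℤ} (hH : Hecke ms p a) (h3 : α ^ 2 - a * α + p = 0) (D : ℕ)
    (hD : 0 < D) : ∃ L : PowerSeries ℤ_[p], IsLp p ms α D L := by
  obtain ⟨v, hv⟩ := hu.exists_right_inv
  obtain ⟨L, hL⟩ := lim_existsp
    (fun n => PowerSeries.C (v ^ (n + 2)) * eltp p ms α D n) (by
      intro n
      obtain ⟨c, hc⟩ := eltp_succ hd h1 hH h3 hD n
      refine ⟨PowerSeries.C (v ^ (n + 1 + 2)) * c, ?_⟩
      have e : (PowerSeries.C (v ^ (n + 2)) : PowerSeries ℤ_[p]) =
          PowerSeries.C (v ^ (n + 1 + 2)) * PowerSeries.C α := by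
        rw [← map_mul]
        congr 1
        rw [show n + 1 + 2 = n + 2 + 1 by ring, pow_succ v (n + 2)]
        linear_combination -(v ^ (n + 2)) * hv
      rw [e]
      linear_combination PowerSeries.C (v ^ (n + 1 + 2)) * hc)
  refine ⟨L, fun n => ?_⟩
  obtain ⟨g, hg⟩ := hL n
  refine ⟨PowerSeries.C (α ^ (n + 2)) * g, ?_⟩
  have e : (PowerSeries.C (α ^ (n + 2)) : PowerSeries ℤ_[p]) *
      PowerSeries.C (v ^ (n + 2)) = 1 := by
    rw [← map_mul, ← mul_pow, hv, one_pow, map_one]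
  linear_combination PowerSeries.C (α ^ (n + 2)) * hg + eltp p ms α D n * e

/-- Existence, from the interface `DlpStatement`. -/
theorem exip_of (h : DlpStatement p) {ms : ℚ → ℤ} (h1 : ∀ x, ms (x + 1) = ms x) {α : ℤ_[p]}
    (hu : IsUnit α) {a : ℤ} (hH : Hecke ms p a) (h3 : α ^ 2 - a * α + p = 0) (D : ℕ)
    (hD : 0 < D) : ∃ L : PowerSeries ℤ_[p], IsLp p ms α D L := by
  refine exip (fun n a ha => ?_) h1 hu hH h3 D hD
  exact h.2 n a ((Nat.Prime.coprime_iff_not_dvd Fact.out).1 ha.symm)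

end

end

end Pool.Agent.Lib.MP_72b84e_nt.Two
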