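import Pool.Agent.Lib.MP_72b84e_nt.Two.Defs

/-!
MP_72b84e_nt (helper94): the 2-adic `L`-function is unique.
-/

set_option autoImplicit false

namespace Pool.Agent.Lib.MP_72b84e_nt.Two

/-- A 2-adic integer divisible by all powers of `2` is `0`. -/
lemma zero_of_pow_dvd (x : ℤ_[2]) (h : ∀ k : ℕ, (2 : ℤ_[2]) ^ k ∣ x) : x = 0 := by
  by_contra hx
  have h2 : ¬ IsUnit (2 : ℤ_[2]) := by
    have h := (PadicInt.prime_p (p := 2)).not_isUnit
    exact_mod_cast h
  obtain ⟨n, hn⟩ := FiniteMultiplicity.of_not_isUnit h2 hx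
  exact hn (h (n + 1))

/-- The ideals generated by the `(1 + T) ^ (2 ^ n) - 1` have intersection `0`. -/
theorem om_inter (ho : OmgStatement) (f : Lam) (h : ∀ n : ℕ, om n ∣ f) : f = 0 := by
  ext i
  rw [map_zero]
  refine zero_of_pow_dvd _ fun k => ?_
  obtain ⟨g, hg⟩ := h (i + k)
  have h1 := ho (i + k) i g (Nat.le_add_right i k)
  rw [Nat.add_sub_cancel_left, ← hg] at h1
  exact h1

/-- A series which is a multiple of `2 ^ k` modulo all the `(1 + T) ^ (2 ^ n) - 1` is a multiple of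
`2 ^ k`. -/
theorem om_pow_dvd (ho : OmgStatement) (f : Lam) (k : ℕ)
    (h : ∀ n : ℕ, ∃ g : Lam, om n ∣ f - ((2 : ℤ) ^ k) • g) : ∃ g : Lam, f = ((2 : ℤ) ^ k) • g := by
  have key : ∀ i : ℕ, (2 : ℤ_[2]) ^ k ∣ PowerSeries.coeff i f := by
    intro i
    obtain ⟨g, hg⟩ := h (i + k)
    obtain ⟨e, he⟩ := hg
    have h1 := ho (i + k) i e (Nat.le_add_right i k)
    rw [Nat.add_sub_cancel_left, ← he, map_sub, map_zsmul, zsmul_eq_mul] at h1
    have h2 : (2 : ℤ_[2]) ^ k ∣ (((2 : ℤ) ^ k : ℤ) : ℤ_[2]) * PowerSeries.coeff i g := by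
      push_cast
      exact dvd_mul_right _ _
    have h3 := dvd_add h1 h2
    rwa [sub_add_cancel] at h3
  choose c hc using key
  refine ⟨PowerSeries.mk c, ?_⟩
  ext i
  rw [map_zsmul, zsmul_eq_mul, PowerSeries.coeff_mk, hc i]
  push_cast
  rfl

/-- The 2-adic `L`-function is unique. -/
theorem isL_unique (ho : OmgStatement) {ms : ℚ → ℤ} {α : ℤ_[2]} (hα : IsUnit α) {D : ℕ}
    {L L' : Lam} (h : IsL ms α D L) (h' : IsL ms α D L') : L = L' := by
  rw [← sub_eq_zero]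
  refine om_inter ho _ fun n => ?_
  have hu : IsUnit (PowerSeries.C (α ^ (n + 3)) : Lam) := (hα.pow _).map PowerSeries.C
  have h1 := dvd_sub (h n) (h' n)
  rw [sub_sub_sub_cancel_right, ← mul_sub] at h1
  exact (hu.dvd_mul_left).mp h1

end Pool.Agent.Lib.MP_72b84e_nt.Two
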