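import Pool.Agent.Lib.MP_72b84e_nt.Two.Dlg
import Pool.Agent.Lib.MP_72b84e_nt.Two.Exi
import Pool.Agent.Lib.MP_72b84e_nt.Two.Omg
import Pool.Agent.Lib.MP_72b84e_nt.Two.Uni

/-! MP_72b84e_nt: existence and uniqueness of the 2-adic `L`-functions. -/

namespace Pool.Agent.Lib.MP_72b84e_nt.Two

theorem exu {ms : ℚ → ℤ} (h1 : ∀ x, ms (x + 1) = ms x) {α : ℤ_[2]} (hα : IsUnit α) {a₂ : ℤ}
    (h2 : Hecke ms 2 a₂) (h3 : α ^ 2 - a₂ * α + 2 = 0) (D : ℕ) (hD : Odd D) :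
    ∃! L : Lam, IsL ms α D L := by
  obtain ⟨L, hL⟩ := exi dlg ms α a₂ D h1 h2 hα h3 hD
  exact ⟨L, hL, fun L' h => isL_unique omg hα h hL⟩

end Pool.Agent.Lib.MP_72b84e_nt.Two
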