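import Pool.Agent.Lib.MP_72b84e_nt.Two.DlpP
import Pool.Agent.Lib.MP_72b84e_nt.Two.ExiP

/-!
MP_72b84e_nt, row EXP (helpers 94 and 87): the `p`-adic `L`-function exists and is unique, `p` odd.
-/

set_option autoImplicit false

namespace Pool.Agent.Lib.MP_72b84e_nt.Two

theorem exup {p : ℕ} [Fact p.Prime] (hp2 : p ≠ 2) {ms : ℚ → ℤ} (h1 : ∀ x, ms (x + 1) = ms x)
    {α : ℤ_[p]} (hu : IsUnit α) {a : ℤ} (hH : Hecke ms p a) (h3 : α ^ 2 - a * α + p = 0)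
    (D : ℕ) (hD : 0 < D) : ∃! L : PowerSeries ℤ_[p], IsLp p ms α D L := by
  obtain ⟨L, hL⟩ := exip_of (dlp hp2) h1 hu hH h3 D hD
  exact ⟨L, hL, fun L' hL' => isLp_unique hu hL' hL⟩

end Pool.Agent.Lib.MP_72b84e_nt.Two
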