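import Pool.Agent.Lib.MP_72b84e_nt.Two.Asm
import Pool.Agent.Lib.MP_72b84e_nt.Two.Dlg
import Pool.Agent.Lib.MP_72b84e_nt.Two.Exi
import Pool.Agent.Lib.MP_50bb2e_nt.Hgp.Blocks
import Pool.Agent.Lib.MP_50bb2e_nt.Hgp.Tow

/-!
MP_72b84e_nt, board TWO (helper73). The system of one curve, for the public statement.
-/

open Finset

namespace Pool.Agent.Lib.MP_72b84e_nt.Two

open Pool.Agent.Lib.MP_50bb2e_nt.Qtw (Dyadic Lip Dif)
open Pool.Agent.Lib.MP_50bb2e_nt.Low (HasLip)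
open Pool.Agent.Lib.MP_50bb2e_nt.Hgp (Dv exists_fun dv_torsion)

noncomputable section

/-- a nonzero coefficient bounds the order -/
theorem order_of_coeff {r : ℕ} {L : Lam} {k : ℕ} (h : ¬ Dv (trn r L) k) :
    ∃ m : ℕ, m ≤ r ∧ L.order = m := by
  rw [dv_iff] at h
  push Not at h
  obtain ⟨i, hi⟩ := h
  have hne : PowerSeries.coeff (i : ℕ) L ≠ 0 := by
    intro h0
    apply hi
    change (2 : Z2) ^ k ∣ PowerSeries.coeff (i : ℕ) L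
    rw [h0]
    exact dvd_zero _
  have h1 := PowerSeries.order_le (i : ℕ) hne
  obtain ⟨m, hm⟩ := ENat.ne_top_iff_exists.1 (ne_top_of_le_ne_top (ENat.coe_ne_top _) h1)
  refine ⟨m, ?_, hm.symm⟩
  rw [← hm] at h1
  have h2 : m ≤ (i : ℕ) := by exact_mod_cast h1
  have := i.2
  omega

/-- THE SYSTEM OF ONE CURVE: for some choice of the 2-adic `L`-functions `L D` -/
theorem one_sys {ms : ℚ → ℤ} (h1 : ∀ x, ms (x + 1) = ms x) {α : ℤ_[2]} (hα : IsUnit α) {a₂ : ℤ}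
    (hH : Hecke ms 2 a₂) (hroot : α ^ 2 - a₂ * α + 2 = 0) {aq : ℕ → ℤ} {P : Set ℕ}
    (hP : ∀ q ∈ P, q.Prime ∧ q ≠ 2 ∧ Hecke ms q (aq q) ∧ Odd (aq q)) (r j : ℕ)
    (hbase : ∀ L, IsL ms α 1 L → ∃ i ≤ r, ¬ (2 : ℤ_[2]) ^ (j + 1) ∣ PowerSeries.coeff i L)
    {v : AbsoluteValue ℂ ℝ} (hv : Dyadic v) :
    ∃ ℓ : Finset ℕ → ℝ, v 2 ^ j ≤ ℓ ∅ ∧ HasLip v P 1 ℓ ∧
      ∀ S : Finset ℕ, (S : Set ℕ) ⊆ P → ℓ S ≠ 0 →
        ∃ L k, IsL ms α (∏ p ∈ S, p) L ∧ k ≤ r ∧ L.order = (k : ℕ) := by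
  classical
  have hex : ∀ D : ℕ, ∃ L, Odd D → IsL ms α D L := by
    intro D
    by_cases hD : Odd D
    · obtain ⟨L, hL⟩ := exi dlg ms α a₂ D h1 hH hα hroot hD
      exact ⟨L, fun _ => hL⟩
    · exact ⟨0, fun h => absurd h hD⟩
  choose L hL using hex
  have hodd : ∀ S : Finset ℕ, (S : Set ℕ) ⊆ P → Odd (∏ p ∈ S, p) := by
    intro S hS
    exact Finset.prod_induction _ _ (fun a b ha hb => ha.mul hb) odd_one
      fun p hp => (hP p (hS hp)).1.odd_of_ne_two (hP p (hS hp)).2.1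
  have hlip := two_sys dlg h1 hα hP L (fun S hS => hL _ (hodd S hS)) r hv
  refine ⟨_, ?_, hlip, ?_⟩
  · refine sz_base hv fun h => ?_
    obtain ⟨i, hi, hn⟩ := hbase (L 1) (hL 1 odd_one)
    rw [Finset.prod_empty, dv_iff] at h
    exact hn (h ⟨i, by omega⟩)
  · intro S hS hne
    obtain ⟨k, hk⟩ := sz_ne hne
    obtain ⟨m, hm, ho⟩ := order_of_coeff hk
    exact ⟨L (∏ p ∈ S, p), m, hL _ (hodd S hS), hm, ho⟩

end

end Pool.Agent.Lib.MP_72b84e_nt.Two
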