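import Pool.Agent.Lib.MP_50bb2e_nt.Hgp.Lipz

/-!
MP_72b84e_nt (helper73). Values in an abelian group, indexed by finite sets of primes, whose cube
sums are divisible and whose dyadic content does not depend on the level: a Lipschitz system.
-/

open Finset

namespace Pool.Agent.Lib.MP_72b84e_nt.Two

open Pool.Agent.Lib.MP_50bb2e_nt.Qtw (Dyadic Lip Dif)
open Pool.Agent.Lib.MP_50bb2e_nt.Low (HasLip)
open Pool.Agent.Lib.MP_50bb2e_nt.Hgp (Dv exists_fun dv_torsion)

noncomputable section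

variable {M : Type} [AddCommGroup M]

open Classical in
/-- the size of an element -/
def sz (v : AbsoluteValue ℂ ℝ) (m : M) : ℝ :=
  if h : ∃ k, Dv m k ∧ ¬ Dv m (k + 1) then v 2 ^ h.choose else 0

/-- elements which are not infinitely divisible have a content -/
theorem content {m : M} (hlarge : ∃ k : ℕ, ¬ Dv m k) : ∃ k, Dv m k ∧ ¬ Dv m (k + 1) := by
  classical
  have hf := Nat.find_spec hlarge
  have hpos : Nat.find hlarge ≠ 0 := by
    intro h
    rw [h] at hf
    exact hf ⟨1, odd_one, m, by simp⟩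
  obtain ⟨k, hk⟩ := Nat.exists_eq_succ_of_ne_zero hpos
  refine ⟨k, ?_, ?_⟩
  · by_contra hcon
    exact Nat.find_min hlarge (m := k) (by omega) hcon
  · rw [hk] at hf
    exact hf

theorem sz_base {v : AbsoluteValue ℂ ℝ} (hv : Dyadic v) {m : M} {j : ℕ} (hj : ¬ Dv m (j + 1)) :
    v 2 ^ j ≤ sz v m := by
  have hv2 : 0 < v 2 := v.pos two_ne_zero
  have hex := content ⟨_, hj⟩
  unfold sz
  rw [dif_pos hex]
  have h1 := hex.choose_spec.1
  refine pow_le_pow_of_le_one hv2.le hv.2.le ?_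
  by_contra hcon
  push Not at hcon
  exact hj (h1.le hcon)

theorem sz_ne {v : AbsoluteValue ℂ ℝ} {m : M} (h : sz v m ≠ 0) : ∃ k, ¬ Dv m (k + 1) := by
  unfold sz at h
  split_ifs at h with hex
  · exact ⟨_, hex.choose_spec.2⟩
  · exact absurd rfl h

theorem gen_lip (htwo : ∀ m : M, (2 : ℤ) • m = 0 → m = 0)
    (hnd : ∀ m : M, (∀ n : ℕ, 0 < n → n • m ≠ 0) → ∃ k, ¬ Dv m k)
    {P : Set ℕ} (y : Finset ℕ → Finset ℕ → M)
    (hcube : ∀ T : Finset ℕ, (T : Set ℕ) ⊆ P → ∀ C U : Finset ℕ, C ⊆ T → U ⊆ T → Disjoint C U →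
      ∃ q : M, ∑ S ∈ U.powerset, ((-1 : ℤ) ^ S.card) • y T (C ∪ S) = ((2 : ℤ) ^ U.card) • q)
    (hlev : ∀ T : Finset ℕ, (T : Set ℕ) ⊆ P → ∀ S ⊆ T, ∀ k, Dv (y T S) k ↔ Dv (y S S) k)
    {v : AbsoluteValue ℂ ℝ} (hv : Dyadic v) : HasLip v P 1 (fun S => sz v (y S S)) := by
  classical
  have hv2 : 0 < v 2 := v.pos two_ne_zero
  intro T hT
  have hq : ∀ C U : Finset ℕ, ∃ q : M, (C ⊆ T ∧ U ⊆ T ∧ Disjoint C U →
      ∑ S ∈ U.powerset, ((-1 : ℤ) ^ S.card) • y T (C ∪ S) = ((2 : ℤ) ^ U.card) • q) := by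
    intro C U
    by_cases hd : C ⊆ T ∧ U ⊆ T ∧ Disjoint C U
    · obtain ⟨q, h2⟩ := hcube T hT C U hd.1 hd.2.1 hd.2.2
      exact ⟨q, fun _ => h2⟩
    · exact ⟨0, fun h => absurd h hd⟩
  choose qf hqf using hq
  have hw : ∀ S : Finset ℕ, ∃ w : M, ∀ k, Dv (y T S) k → ¬ Dv (y T S) (k + 1) →
      ∃ n : ℤ, Odd n ∧ n • y T S = ((2 : ℤ) ^ k) • w := by
    intro S
    by_cases hk : ∃ k, Dv (y T S) k ∧ ¬ Dv (y T S) (k + 1)
    · obtain ⟨k, hk1, hk2⟩ := hk
      obtain ⟨n, hn, w, he⟩ := id hk1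
      refine ⟨w, fun l hl1 hl2 => ?_⟩
      have hkl : k = l := by
        rcases lt_trichotomy k l with h | h | h
        · exact absurd (hl1.le h) hk2
        · exact h
        · exact absurd (hk1.le h) hl2
      subst hkl
      exact ⟨n, hn, he⟩
    · exact ⟨0, fun k h1 h2 => absurd ⟨k, h1, h2⟩ hk⟩
  choose wf hwf using hw
  set Z : Finset M := (T.powerset.image fun S => y T S) ∪ T.powerset.image wf ∪
    (T.powerset ×ˢ T.powerset).image (fun p => qf p.1 p.2) with hZ
  set H : AddSubgroup M := AddSubgroup.closure (Z : Set M) with hH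
  have hfin : Module.Finite ℤ H :=
    Module.Finite.iff_addGroup_fg.2 ((AddGroup.fg_iff_addSubgroup_fg _).2 ⟨Z, rfl⟩)
  have hxH : ∀ S ⊆ T, y T S ∈ H := fun S hS => AddSubgroup.subset_closure (by
    rw [hZ]
    exact Finset.mem_coe.2 (Finset.mem_union_left _ (Finset.mem_union_left _
      (Finset.mem_image_of_mem _ (Finset.mem_powerset.2 hS)))))
  have hwH : ∀ S ⊆ T, wf S ∈ H := fun S hS => AddSubgroup.subset_closure (by
    rw [hZ]
    exact Finset.mem_coe.2 (Finset.mem_union_left _ (Finset.mem_union_right _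
      (Finset.mem_image_of_mem _ (Finset.mem_powerset.2 hS)))))
  have hqH : ∀ C ⊆ T, ∀ U ⊆ T, qf C U ∈ H := fun C hC U hU => AddSubgroup.subset_closure (by
    rw [hZ]
    refine Finset.mem_coe.2 (Finset.mem_union_right _ (Finset.mem_image.2 ⟨(C, U), ?_, rfl⟩))
    exact Finset.mem_product.2 ⟨Finset.mem_powerset.2 hC, Finset.mem_powerset.2 hU⟩)
  have htwoH : ∀ a : H, (2 : ℤ) • a = 0 → a = 0 := by
    intro a ha
    exact Subtype.ext (htwo a (congrArg Subtype.val ha))
  let x : Finset ℕ → H := fun S => if h : S ⊆ T then ⟨y T S, hxH S h⟩ else 0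
  have hx : ∀ S (h : S ⊆ T), x S = ⟨y T S, hxH S h⟩ := fun S h => dif_pos h
  obtain ⟨f, hf1, hf2⟩ := exists_fun (A := H) hv htwoH (T.powerset.image x)
  refine ⟨fun S => f (x S), ?_, ?_⟩
  · intro C U hC hU hd
    have he := hqf C U ⟨hC, hU, hd⟩
    have h1 : Dif (fun S => f (x S)) C U = f (((2 : ℤ) ^ U.card) • ⟨qf C U, hqH C hC U hU⟩) := by
      unfold Dif
      have h2 : (((2 : ℤ) ^ U.card) • (⟨qf C U, hqH C hC U hU⟩ : H)) =
          ∑ S ∈ U.powerset, ((-1 : ℤ) ^ S.card) • x (C ∪ S) := by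
        apply Subtype.ext
        rw [AddSubgroup.val_finsetSum]
        refine he.symm.trans (Finset.sum_congr rfl fun S hS => ?_)
        rw [hx (C ∪ S) (Finset.union_subset hC ((Finset.mem_powerset.1 hS).trans hU))]
        rfl
      rw [h2, map_sum]
      refine Finset.sum_congr rfl fun S _ => ?_
      rw [map_zsmul, zsmul_eq_mul]
      push_cast
      rfl
    rw [h1, map_zsmul, zsmul_eq_mul, v.map_mul, mul_one]
    push_cast
    rw [v.map_pow]
    exact mul_le_of_le_one_right (pow_nonneg hv2.le _) (hf1 _)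
  · intro S hS
    have hD := hlev T hT S hS
    change v (f (x S)) = sz v (y S S)
    unfold sz
    by_cases hex : ∃ k, Dv (y S S) k ∧ ¬ Dv (y S S) (k + 1)
    · rw [dif_pos hex]
      have h1 := hex.choose_spec
      have hk1 := (hD _).2 h1.1
      have hk2 : ¬ Dv (y T S) (hex.choose + 1) := fun h => h1.2 ((hD _).1 h)
      refine hf2 (x S) (Finset.mem_image_of_mem x (Finset.mem_powerset.2 hS)) hex.choose ?_ ?_
      · obtain ⟨n', hn', h3⟩ := hwf S _ hk1 hk2
        refine ⟨n', hn', ⟨wf S, hwH S hS⟩, ?_⟩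
        rw [hx S hS]
        exact Subtype.ext h3
      · rintro ⟨n', hn', q, h3⟩
        apply hk2
        refine ⟨n', hn', q, ?_⟩
        rw [hx S hS] at h3
        exact congrArg Subtype.val h3
    · rw [dif_neg hex]
      -- the element is torsion
      have htor : ∃ n : ℕ, 0 < n ∧ n • y T S = 0 := by
        by_contra hcon
        push Not at hcon
        obtain ⟨k, hk1, hk2⟩ := content (hnd (y T S) hcon)
        exact hex ⟨k, (hD k).1 hk1, fun h => hk2 ((hD _).2 h)⟩
      obtain ⟨n', hn', h0⟩ := htor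
      have h1 : f (x S) = 0 := by
        have h00 : n' • x S = 0 := by
          rw [hx S hS]
          exact Subtype.ext h0
        have h2 := congrArg f h00
        rw [map_nsmul, map_zero, nsmul_eq_mul] at h2
        rcases mul_eq_zero.1 h2 with h | h
        · exact absurd (by exact_mod_cast h) hn'.ne'
        · exact h
      change v (f (x S)) = 0
      rw [h1, map_zero]

end

end Pool.Agent.Lib.MP_72b84e_nt.Two
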