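import Pool.Agent.Lib.MP_72b84e_nt.Two.Defs

/-! MP_72b84e_nt, row PAR, interface between the two parts (helper94). -/

set_option autoImplicit false

namespace Pool.Agent.Lib.MP_72b84e_nt.Two

/-- row PARF (finite sums; from DlgStatement): `ι` is a substitution which inverts `1 + T`. -/
def ParfStatement : Prop :=
  ∀ (ι : Lam →+* Lam), (∀ x : ℤ_[2], ι (PowerSeries.C x) = PowerSeries.C x) →
    (∀ k : ℕ, ι (pw k) * pw k = 1) →
    ∀ (ms : ℚ → ℤ) (α : ℤ_[2]) (N D n : ℕ) (w : ℤ), (∀ x, ms (x + 1) = ms x) →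
    (w = 1 ∨ w = -1) → ¬ 2 ∣ N → Odd D → D.Coprime N →
    (∀ M a b : ℕ, M.Coprime N → M ∣ N * a * b + 1 → ms (a / M) = w * ms (b / M)) →
    om n ∣ ι (elt ms α D D n) - ((w * jacobiSym (-N) D : ℤ) : Lam) * ex n N * elt ms α D D n

end Pool.Agent.Lib.MP_72b84e_nt.Two
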