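import Pool.Agent.Lib.MP_72b84e_nt.Two.ParProp
import Pool.Agent.Lib.MP_72b84e_nt.Two.ParDefs
import Pool.Agent.Lib.MP_72b84e_nt.Two.Uni

/-! MP_72b84e_nt, row PAR (helper94): the parity of the order of the 2-adic `L`-function. -/

set_option autoImplicit false

namespace Pool.Agent.Lib.MP_72b84e_nt.Two

/-- The substitution `T -> 1 / (1 + T) - 1`. -/
lemma exists_iota : ∃ (ι : Lam →+* Lam) (g : Lam), g * (1 + PowerSeries.X) = 1 ∧
    ι PowerSeries.X = -(PowerSeries.X * g) ∧
    ∀ x : ℤ_[2], ι (PowerSeries.C x) = PowerSeries.C x := by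
  have hu : IsUnit (1 + PowerSeries.X : Lam) := by
    rw [PowerSeries.isUnit_iff_constantCoeff, map_add, map_one, PowerSeries.constantCoeff_X,
      add_zero]
    exact isUnit_one
  obtain ⟨g, hg⟩ := hu.exists_left_inv
  have hs : PowerSeries.HasSubst (-(PowerSeries.X * g) : Lam) := by
    apply PowerSeries.HasSubst.of_constantCoeff_zero'
    rw [map_neg, map_mul, PowerSeries.constantCoeff_X, zero_mul, neg_zero]
  refine ⟨(PowerSeries.substAlgHom (R := ℤ_[2]) hs : Lam →ₐ[ℤ_[2]] Lam).toRingHom, g, hg, ?_, ?_⟩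
  · exact PowerSeries.substAlgHom_X hs
  · intro x
    exact (PowerSeries.substAlgHom (R := ℤ_[2]) hs : Lam →ₐ[ℤ_[2]] Lam).commutes x

lemma const_pw' (k : ℕ) : PowerSeries.constantCoeff (pw k) = (1 : ℤ_[2]) := by
  unfold pw
  rw [map_pow, map_add, map_one, PowerSeries.constantCoeff_X, add_zero, one_pow]

lemma iota_pw {ι : Lam →+* Lam} {g : Lam} (hg : g * (1 + PowerSeries.X) = 1)
    (hX : ι PowerSeries.X = -(PowerSeries.X * g)) (k : ℕ) : ι (pw k) * pw k = 1 := by
  unfold pw
  rw [map_pow, ← mul_pow, map_add, map_one, hX]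
  have h : (1 + -(PowerSeries.X * g)) * (1 + PowerSeries.X) = (1 : Lam) := by
    linear_combination -(PowerSeries.X) * hg
  rw [h, one_pow]

lemma iota_om {ι : Lam →+* Lam} (hp : ∀ k : ℕ, ι (pw k) * pw k = 1) (n : ℕ) :
    om n ∣ ι (om n) := by
  refine ⟨-ι (pw (2 ^ n)), ?_⟩
  have h := hp (2 ^ n)
  unfold om
  rw [map_sub, map_one]
  linear_combination h

lemma iota_const {ι : Lam →+* Lam} {g : Lam}
    (hX : ι PowerSeries.X = -(PowerSeries.X * g))
    (hC : ∀ x : ℤ_[2], ι (PowerSeries.C x) = PowerSeries.C x) (U : Lam) :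
    PowerSeries.constantCoeff (ι U) = PowerSeries.constantCoeff U := by
  have h1 : PowerSeries.X ∣ U - PowerSeries.C (PowerSeries.constantCoeff U) := by
    rw [PowerSeries.X_dvd_iff, map_sub, PowerSeries.constantCoeff_C, sub_self]
  obtain ⟨V, hV⟩ := h1
  have h2 : U = PowerSeries.C (PowerSeries.constantCoeff U) + PowerSeries.X * V := by
    linear_combination hV
  have h3 : ι U = PowerSeries.C (PowerSeries.constantCoeff U) - PowerSeries.X * (g * ι V) := by
    conv_lhs => rw [h2]
    rw [map_add, map_mul, hX, hC]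
    ring
  rw [h3, map_sub, PowerSeries.constantCoeff_C, map_mul, PowerSeries.constantCoeff_X, zero_mul,
    sub_zero]

lemma coeff_X_pow_mul_self (k : ℕ) (F : Lam) :
    PowerSeries.coeff k (PowerSeries.X ^ k * F) = PowerSeries.constantCoeff F := by
  have h := PowerSeries.coeff_X_pow_mul F k 0
  rw [zero_add] at h
  rw [h, PowerSeries.coeff_zero_eq_constantCoeff_apply]

/-- row PAR from the finite sums -/
theorem par (hf : ParfStatement) (ho : OmgStatement) : ParStatement := by
  intro ms α N D w L k hper hα hw hN hD hDN hms hL hord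
  obtain ⟨ι, g, hg, hX, hC⟩ := exists_iota
  have hp := iota_pw hg hX
  have hL0 : L ≠ 0 := by
    rintro rfl
    rw [PowerSeries.order_zero] at hord
    exact ENat.natCast_ne_top _ hord.symm
  have hk0 : PowerSeries.coeff k L ≠ 0 := by
    have h1 := PowerSeries.coeff_order hL0
    rwa [hord, ENat.toNat_natCast] at h1
  have hdv : PowerSeries.X ^ k ∣ L := by
    rw [PowerSeries.X_pow_dvd_iff]
    intro m hm
    apply PowerSeries.coeff_of_lt_order
    rw [hord]
    exact_mod_cast hm
  obtain ⟨U, hU⟩ := hdv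
  have hu0 : PowerSeries.coeff k L = PowerSeries.constantCoeff U := by
    rw [hU, coeff_X_pow_mul_self]
  have hg1 : PowerSeries.constantCoeff g = 1 := by
    have h := congrArg PowerSeries.constantCoeff hg
    rwa [map_mul, map_add, map_one, PowerSeries.constantCoeff_X, add_zero, mul_one] at h
  have hιk : PowerSeries.coeff k (ι L) = (-1) ^ k * PowerSeries.constantCoeff U := by
    have h1 : ι L = PowerSeries.X ^ k * ((-g) ^ k * ι U) := by
      rw [hU, map_mul, map_pow, hX, ← mul_neg, mul_pow, mul_assoc]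
    rw [h1, coeff_X_pow_mul_self, map_mul, map_pow, map_neg, hg1, iota_const hX hC]
  set ε : ℤ := w * jacobiSym (-N) D with hε
  have key : ∀ n : ℕ, om n ∣ ι L - (ε : Lam) * ex n N * L := by
    intro n
    have h1 := hf ι hC hp ms α N D n w hper hw hN hD hDN hms
    rw [← hε] at h1
    have h2 := hL n
    have h3 : om n ∣ ι (PowerSeries.C (α ^ (n + 3)) * L - elt ms α D D n) := by
      obtain ⟨c, hc⟩ := h2
      rw [hc, map_mul]
      exact (iota_om hp n).mul_right _
    rw [map_sub, map_mul, hC] at h3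
    have hunit : IsUnit (PowerSeries.C (α ^ (n + 3)) : Lam) := (hα.pow _).map PowerSeries.C
    have h4 : om n ∣ PowerSeries.C (α ^ (n + 3)) * (ι L - (ε : Lam) * ex n N * L) := by
      have h5 : PowerSeries.C (α ^ (n + 3)) * (ι L - (ε : Lam) * ex n N * L) =
          (PowerSeries.C (α ^ (n + 3)) * ι L - ι (elt ms α D D n)) +
          (ι (elt ms α D D n) - (ε : Lam) * ex n N * elt ms α D D n) -
          (ε : Lam) * ex n N * (PowerSeries.C (α ^ (n + 3)) * L - elt ms α D D n) := by
        ring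
      rw [h5]
      exact dvd_sub (dvd_add h3 h1) (h2.mul_left _)
    exact (hunit.dvd_mul_left).mp h4
  have hzero : ((-1) ^ k - (ε : ℤ_[2])) * PowerSeries.constantCoeff U = 0 := by
    refine zero_of_pow_dvd _ fun j => ?_
    obtain ⟨c, hc⟩ := key (k + j)
    have h1 := ho (k + j) k c (Nat.le_add_right k j)
    rw [Nat.add_sub_cancel_left, ← hc, map_sub, hιk] at h1
    have h2 : PowerSeries.coeff k ((ε : Lam) * ex (k + j) N * L) =
        (ε : ℤ_[2]) * PowerSeries.constantCoeff U := by
      have h3 : (ε : Lam) * ex (k + j) N * L =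
          PowerSeries.X ^ k * ((ε : Lam) * ex (k + j) N * U) := by
        conv_lhs => rw [hU]
        ring
      rw [h3, coeff_X_pow_mul_self, map_mul, map_mul, map_intCast]
      unfold ex
      rw [const_pw', mul_one]
    rw [h2, ← sub_mul] at h1
    exact h1
  rw [hu0] at hk0
  have hfin : ((-1) ^ k - (ε : ℤ_[2])) = 0 := by
    rcases mul_eq_zero.mp hzero with h | h
    · exact h
    · exact absurd h hk0
  have h7 : (((-1) ^ k : ℤ) : ℤ_[2]) = ((ε : ℤ) : ℤ_[2]) := by
    push_cast
    exact sub_eq_zero.mp hfin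
  exact_mod_cast h7

end Pool.Agent.Lib.MP_72b84e_nt.Two
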