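import Pool.Agent.Lib.MP_72b84e_nt.Two.Defs
namespace Pool.Agent.Lib.MP_72b84e_nt.Two
/-- row PAR: the Atkin-Lehner relation of the symbols gives the parity of the order -/
def ParStatement : Prop :=
  ∀ (ms : ℚ → ℤ) (α : ℤ_[2]) (N D : ℕ) (w : ℤ) (L : Lam) (k : ℕ), (∀ x, ms (x + 1) = ms x) →
    IsUnit α → (w = 1 ∨ w = -1) → ¬ 2 ∣ N → Odd D → D.Coprime N →
    (∀ M a b : ℕ, M.Coprime N → M ∣ N * a * b + 1 → ms (a / M) = w * ms (b / M)) →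
    IsL ms α D L → L.order = (k : ℕ) → (-1) ^ k = w * jacobiSym (-N) D
end Pool.Agent.Lib.MP_72b84e_nt.Two
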