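import Pool.Agent.Lib.MP_72b84e_nt.Two.ParDefs

/-!
MP_72b84e_nt, row PARF (helper87): the finite sum part of the functional equation. The involution
`a -> b` with `N a b = -1` modulo `M = 2 ^ (n + 2) D` permutes the residues prime to `M`.
-/

set_option autoImplicit false

open Finset

namespace Pool.Agent.Lib.MP_72b84e_nt.Two

noncomputable section

/-- The residue `b` modulo `M` with `N a b = -1` modulo `M`. -/
def binv (M N a : ℕ) : ℕ := (-((N * a : ℕ) : ZMod M)⁻¹).val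

lemma binv_lt {M : ℕ} (hM : 0 < M) (N a : ℕ) : binv M N a < M := by
  haveI : NeZero M := ⟨hM.ne'⟩
  exact ZMod.val_lt _

lemma binv_dvd {M : ℕ} (hM : 0 < M) {N a : ℕ} (hN : M.Coprime N) (ha : a.Coprime M) :
    M ∣ N * a * binv M N a + 1 := by
  haveI : NeZero M := ⟨hM.ne'⟩
  rw [← ZMod.natCast_eq_zero_iff]
  have hc : (N * a).Coprime M := Nat.Coprime.mul_left hN.symm ha
  have h1 : ((N * a : ℕ) : ZMod M) * ((N * a : ℕ) : ZMod M)⁻¹ = 1 :=
    ZMod.coe_mul_inv_eq_one (N * a) hc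
  have h2 : ((binv M N a : ℕ) : ZMod M) = -((N * a : ℕ) : ZMod M)⁻¹ := by
    unfold binv
    exact ZMod.natCast_zmod_val _
  have h3 : ((N * a * binv M N a + 1 : ℕ) : ZMod M) =
      ((N * a : ℕ) : ZMod M) * ((binv M N a : ℕ) : ZMod M) + 1 := by
    push_cast
    ring
  rw [h3, h2]
  linear_combination -h1

/-- From `M` divides `N a b + 1` it follows that `b` is prime to `M`. -/
lemma cop_of_dvd {M N a b : ℕ} (h : M ∣ N * a * b + 1) : b.Coprime M := by
  have h1 : (b.gcd M) ∣ N * a * b + 1 := dvd_trans (Nat.gcd_dvd_right b M) h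
  have h2 : (b.gcd M) ∣ N * a * b := Dvd.dvd.mul_left (Nat.gcd_dvd_left b M) _
  have h3 : (b.gcd M) ∣ 1 := (Nat.dvd_add_right h2).1 h1
  exact Nat.dvd_one.1 h3

lemma uniq_of_dvd {M N a b c : ℕ} (hb : M ∣ N * a * b + 1) (hc : M ∣ N * b * c + 1)
    (ha' : a < M) (hc' : c < M) : c = a := by
  have hbM : b.Coprime M := cop_of_dvd hb
  have hN : N.Coprime M := by
    have h0 : M ∣ b * a * N + 1 := by
      have e : b * a * N + 1 = N * a * b + 1 := by ring
      rw [e]
      exact hb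
    exact cop_of_dvd h0
  have h1 : N * b * c + 1 ≡ N * b * a + 1 [MOD M] := by
    have h2 : N * b * c + 1 ≡ 0 [MOD M] := (Nat.modEq_zero_iff_dvd).2 hc
    have h3 : N * b * a + 1 ≡ 0 [MOD M] := by
      apply (Nat.modEq_zero_iff_dvd).2
      have e : N * b * a + 1 = N * a * b + 1 := by ring
      rw [e]
      exact hb
    exact h2.trans h3.symm
  have h2 : N * b * c ≡ N * b * a [MOD M] := Nat.ModEq.add_right_cancel' 1 h1
  have h3 : c ≡ a [MOD M] :=
    Nat.ModEq.cancel_left_of_coprime (Nat.Coprime.symm (Nat.Coprime.mul_left hN hbM)) h2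
  exact Nat.ModEq.eq_of_lt_of_lt h3 hc' ha'

/-- The logarithm of a number which is `-1` modulo `2 ^ (n + 2)` is zero. -/
lemma ex_neg_one (n c : ℕ) (h : 2 ^ (n + 2) ∣ c + 1) : ex n c = 1 := by
  have h0 : (c : ZMod (2 ^ (n + 2))) = -1 := by
    have h1 : ((c + 1 : ℕ) : ZMod (2 ^ (n + 2))) = 0 := (ZMod.natCast_eq_zero_iff _ _).2 h
    push_cast at h1
    exact eq_neg_of_add_eq_zero_left h1
  have h2 : dlog n c = 0 := by
    unfold dlog
    apply Nat.sInf_eq_zero.2
    left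
    right
    rw [h0, pow_zero]
  unfold ex
  rw [h2]
  unfold pw
  rw [pow_zero]

/-- `stab` at `a / M` and at `b / M`. -/
lemma stab_al {ms : ℚ → ℤ} {α : ℤ_[2]} {N D n : ℕ} {w : ℤ}
    (hal : ∀ M a b : ℕ, M.Coprime N → M ∣ N * a * b + 1 → ms (a / M) = w * ms (b / M))
    (hMN : (2 ^ (n + 2) * D).Coprime N) {a b : ℕ} (hab : 2 ^ (n + 2) * D ∣ N * a * b + 1) :
    stab ms α ((a : ℚ) / ((2 ^ (n + 2) * D : ℕ) : ℚ)) =
      (w : ℤ_[2]) * stab ms α ((b : ℚ) / ((2 ^ (n + 2) * D : ℕ) : ℚ)) := by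
  have h1 := hal (2 ^ (n + 2) * D) a b hMN hab
  have hd : 2 ^ (n + 1) * D ∣ 2 ^ (n + 2) * D := by
    refine Nat.mul_dvd_mul ?_ (dvd_refl D)
    exact pow_dvd_pow 2 (by omega)
  have h2 := hal (2 ^ (n + 1) * D) a b (Nat.Coprime.coprime_dvd_left hd hMN) (dvd_trans hd hab)
  have e : ∀ x : ℕ, 2 * ((x : ℚ) / ((2 ^ (n + 2) * D : ℕ) : ℚ)) =
      (x : ℚ) / ((2 ^ (n + 1) * D : ℕ) : ℚ) := by
    intro x
    have e2 : ((2 ^ (n + 2) * D : ℕ) : ℚ) = 2 * ((2 ^ (n + 1) * D : ℕ) : ℚ) := by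
      push_cast
      ring
    rw [e2]
    rw [← mul_div_assoc, mul_div_mul_left _ _ (by norm_num : (2 : ℚ) ≠ 0)]
  unfold stab
  rw [e a, e b, h1, h2]
  push_cast
  ring

/-- The Jacobi symbols of `a` and of `b`. -/
lemma jac_al {N D a b : ℕ} (hab : D ∣ N * a * b + 1) :
    jacobiSym a D = jacobiSym (-N) D * jacobiSym b D := by
  have ha : a.Coprime D := by
    have h0 : D ∣ N * b * a + 1 := by
      have e : N * b * a + 1 = N * a * b + 1 := by ring
      rw [e]
      exact hab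
    exact cop_of_dvd h0
  have h1 : jacobiSym (-(N : ℤ) * a * b) D = 1 := by
    have h2 : (-(N : ℤ) * a * b) % (D : ℤ) = 1 % (D : ℤ) := by
      apply Int.ModEq.symm
      rw [Int.modEq_iff_dvd]
      have h3 : ((D : ℕ) : ℤ) ∣ ((N * a * b + 1 : ℕ) : ℤ) := Int.natCast_dvd_natCast.2 hab
      have e : -(N : ℤ) * a * b - 1 = -((N * a * b + 1 : ℕ) : ℤ) := by
        push_cast
        ring
      rw [e]
      exact (dvd_neg).2 h3
    rw [jacobiSym.mod_left, h2, ← jacobiSym.mod_left, jacobiSym.one_left]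
  rw [jacobiSym.mul_left, jacobiSym.mul_left] at h1
  have h2 : jacobiSym a D ^ 2 = 1 := by
    apply jacobiSym.sq_one
    exact_mod_cast ha
  calc jacobiSym a D = jacobiSym a D * (jacobiSym (-N) D * jacobiSym a D * jacobiSym b D) := by
        rw [h1, mul_one]
    _ = jacobiSym a D ^ 2 * (jacobiSym (-N) D * jacobiSym b D) := by ring
    _ = jacobiSym (-N) D * jacobiSym b D := by rw [h2, one_mul]

/-- row PARF -/
theorem parf (hd : DlgStatement) : ParfStatement := by
  intro ι hC hpw ms α N D n w hper hw hN2 hD hDN hal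
  obtain ⟨hd1, hd2, hd3, hd4⟩ := hd
  have hNodd : Odd N := Nat.not_even_iff_odd.1 (fun h => hN2 h.two_dvd)
  have hDpos : 0 < D := hD.pos
  have hMN : (2 ^ (n + 2) * D).Coprime N := by
    refine Nat.Coprime.mul_left ?_ hDN
    exact Nat.Coprime.pow_left _ ((Nat.coprime_two_left).2 hNodd)
  have hMpos : 0 < 2 ^ (n + 2) * D := by positivity
  have h2M : 2 ∣ 2 ^ (n + 2) * D := Dvd.dvd.mul_right (dvd_pow_self 2 (by omega)) D
  set F : ℕ → Lam := fun a => ((jacobiSym a D : ℤ) : Lam) *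
      PowerSeries.C (stab ms α ((a : ℚ) / ((2 ^ (n + 2) * D : ℕ) : ℚ))) * ex n a with hF
  have he : elt ms α D D n =
      ∑ a ∈ (Finset.range (2 ^ (n + 2) * D)).filter (fun a => a.Coprime (2 ^ (n + 2) * D)),
        F a := rfl
  have hre : ∑ a ∈ (Finset.range (2 ^ (n + 2) * D)).filter
        (fun a => a.Coprime (2 ^ (n + 2) * D)), F a =
      ∑ a ∈ (Finset.range (2 ^ (n + 2) * D)).filter (fun a => a.Coprime (2 ^ (n + 2) * D)),
        F (binv (2 ^ (n + 2) * D) N a) := by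
    symm
    have hmem : ∀ a ∈ (Finset.range (2 ^ (n + 2) * D)).filter
        (fun a => a.Coprime (2 ^ (n + 2) * D)),
        binv (2 ^ (n + 2) * D) N a ∈ (Finset.range (2 ^ (n + 2) * D)).filter
          (fun a => a.Coprime (2 ^ (n + 2) * D)) := by
      intro a ha
      rw [Finset.mem_filter, Finset.mem_range] at ha ⊢
      exact ⟨binv_lt hMpos N a, cop_of_dvd (binv_dvd hMpos hMN ha.2)⟩
    have hinv : ∀ a ∈ (Finset.range (2 ^ (n + 2) * D)).filter
        (fun a => a.Coprime (2 ^ (n + 2) * D)),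
        binv (2 ^ (n + 2) * D) N (binv (2 ^ (n + 2) * D) N a) = a := by
      intro a ha
      have hb := hmem a ha
      rw [Finset.mem_filter, Finset.mem_range] at ha hb
      exact uniq_of_dvd (binv_dvd hMpos hMN ha.2) (binv_dvd hMpos hMN hb.2) ha.1
        (binv_lt hMpos N _)
    exact Finset.sum_nbij' (fun a => binv (2 ^ (n + 2) * D) N a)
      (fun a => binv (2 ^ (n + 2) * D) N a) hmem hmem hinv hinv (fun _ _ => rfl)
  have hsum : ι (elt ms α D D n) - ((w * jacobiSym (-N) D : ℤ) : Lam) * ex n N * elt ms α D D n =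
      ∑ a ∈ (Finset.range (2 ^ (n + 2) * D)).filter (fun a => a.Coprime (2 ^ (n + 2) * D)),
        (ι (F a) - ((w * jacobiSym (-N) D : ℤ) : Lam) * ex n N *
          F (binv (2 ^ (n + 2) * D) N a)) := by
    rw [Finset.sum_sub_distrib, ← Finset.mul_sum, ← hre, ← he, he, map_sum]
  rw [hsum]
  apply Finset.dvd_sum
  intro a ha
  rw [Finset.mem_filter, Finset.mem_range] at ha
  have hab := binv_dvd hMpos hMN ha.2
  set b : ℕ := binv (2 ^ (n + 2) * D) N a with hbdef
  have hbc : b.Coprime (2 ^ (n + 2) * D) := cop_of_dvd hab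
  have haodd : Odd a :=
    (Nat.coprime_two_right).1 (Nat.Coprime.coprime_dvd_right h2M ha.2)
  have hbodd : Odd b :=
    (Nat.coprime_two_right).1 (Nat.Coprime.coprime_dvd_right h2M hbc)
  -- the product of the three powers
  have hprod : om n ∣ 1 - ex n N * ex n a * ex n b := by
    have h1 := hd1 n (N * a) b (hNodd.mul haodd) hbodd
    have h2 := hd1 n N a hNodd haodd
    have h3 : ex n (N * a * b) = 1 :=
      ex_neg_one n _ (dvd_trans (dvd_mul_right _ _) hab)
    rw [h3] at h1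
    have e : (1 : Lam) - ex n N * ex n a * ex n b =
        (1 - ex n (N * a) * ex n b) + (ex n (N * a) - ex n N * ex n a) * ex n b := by ring
    rw [e]
    exact dvd_add h1 (Dvd.dvd.mul_right h2 _)
  have hstab := stab_al (α := α) hal hMN hab
  have hjac := jac_al (N := N) (D := D) (a := a) (b := b) (dvd_trans (dvd_mul_left _ _) hab)
  have hι : ι (F a) = ((jacobiSym a D : ℤ) : Lam) *
      PowerSeries.C (stab ms α ((a : ℚ) / ((2 ^ (n + 2) * D : ℕ) : ℚ))) * ι (ex n a) := by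
    rw [hF]
    simp only [map_mul, map_intCast, hC]
  have hex : ι (ex n a) * ex n a = 1 := hpw _
  have hcw : PowerSeries.C ((w : ℤ) : ℤ_[2]) = ((w : ℤ) : Lam) := map_intCast PowerSeries.C w
  rw [hι, hstab, hjac, map_mul, hcw]
  have e : ((jacobiSym (-N) D * jacobiSym b D : ℤ) : Lam) *
        (((w : ℤ) : Lam) *
          PowerSeries.C (stab ms α ((b : ℚ) / ((2 ^ (n + 2) * D : ℕ) : ℚ)))) * ι (ex n a) -
      ((w * jacobiSym (-N) D : ℤ) : Lam) * ex n N * F b =
      (((w * jacobiSym (-N) D : ℤ) : Lam) * ((jacobiSym b D : ℤ) : Lam) *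
        PowerSeries.C (stab ms α ((b : ℚ) / ((2 ^ (n + 2) * D : ℕ) : ℚ)))) *
        (ι (ex n a) * (1 - ex n N * ex n a * ex n b)) := by
    rw [hF]
    simp only [Int.cast_mul]
    linear_combination (((w : ℤ) : Lam) * ((jacobiSym (-N) D : ℤ) : Lam) *
      ((jacobiSym b D : ℤ) : Lam) *
      PowerSeries.C (stab ms α ((b : ℚ) / ((2 ^ (n + 2) * D : ℕ) : ℚ))) * ex n N * ex n b) * hex
  rw [e]
  exact Dvd.dvd.mul_left (Dvd.dvd.mul_left hprod _) _

end

end Pool.Agent.Lib.MP_72b84e_nt.Two
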