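import Pool.Agent.Lib.MP_72b84e_nt.Two.Gen

/-!
MP_72b84e_nt (helper73). Power series with 2-adic integral coefficients attached to the finite sets
of primes (partial 2-adic `L`-functions), their signed sums, truncations.
-/

open Finset

namespace Pool.Agent.Lib.MP_72b84e_nt.Two

open Pool.Agent.Lib.MP_50bb2e_nt.Qtw (Dyadic Lip Dif)
open Pool.Agent.Lib.MP_50bb2e_nt.Low (HasLip)
open Pool.Agent.Lib.MP_50bb2e_nt.Hgp (Dv exists_fun dv_torsion)

noncomputable section

/-- the ring of 2-adic integers -/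
abbrev Z2 : Type := ℤ_[2]

/-- the signed sum of level `T` for the character attached to `S` -/
def LL {M : Type} [AddCommGroup M] (θ : Finset ℕ → Finset ℕ → M) (T S : Finset ℕ) : M :=
  ∑ U ∈ T.powerset, ((-1 : ℤ) ^ (U ∩ S).card) • θ T U

theorem cube {M : Type} [AddCommGroup M] (θ : Finset ℕ → Finset ℕ → M) {T C U : Finset ℕ}
    (hd : Disjoint C U) :
    ∃ q : M, ∑ S ∈ U.powerset, ((-1 : ℤ) ^ S.card) • LL θ T (C ∪ S) = ((2 : ℤ) ^ U.card) • q := by
  classical
  have hprod : ∀ W : Finset ℕ, ∑ S ∈ U.powerset, ((-1 : ℤ) ^ S.card) * (-1) ^ (W ∩ (C ∪ S)).card =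
      (-1) ^ (W ∩ C).card * ∏ p ∈ U, (1 - if p ∈ W then -1 else 1) := by
    intro W
    have e1 : ∏ p ∈ U, (1 - if p ∈ W then (-1 : ℤ) else 1) =
        ∑ S ∈ U.powerset, ∏ p ∈ S, (-if p ∈ W then (-1 : ℤ) else 1) := by
      rw [← Finset.prod_one_add]
      exact Finset.prod_congr rfl fun p _ => by ring
    rw [e1, Finset.mul_sum]
    refine Finset.sum_congr rfl fun S hS => ?_
    have hdS : Disjoint C S := Finset.disjoint_of_subset_right (Finset.mem_powerset.1 hS) hd
    have e2 : (W ∩ (C ∪ S)).card = (W ∩ C).card + (W ∩ S).card := by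
      rw [Finset.inter_union_distrib_left]
      exact Finset.card_union_of_disjoint (Finset.disjoint_of_subset_left Finset.inter_subset_right
        (Finset.disjoint_of_subset_right Finset.inter_subset_right hdS))
    have e3 : ∏ p ∈ S, (-if p ∈ W then (-1 : ℤ) else 1) = (-1) ^ S.card * (-1) ^ (W ∩ S).card := by
      rw [Finset.prod_neg]
      congr 1
      rw [Finset.prod_ite, Finset.prod_const_one, mul_one, Finset.prod_const]
      congr 2
      ext p
      rw [Finset.mem_filter, Finset.mem_inter, and_comm]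
    rw [e2, e3, pow_add]
    ring
  have hval : ∀ W : Finset ℕ, ∃ k : ℤ, ∏ p ∈ U, (1 - if p ∈ W then (-1 : ℤ) else 1) =
      2 ^ U.card * k := by
    intro W
    have : (2 : ℤ) ^ U.card ∣ ∏ p ∈ U, (1 - if p ∈ W then (-1 : ℤ) else 1) := by
      rw [← Finset.prod_const]
      refine Finset.prod_dvd_prod_of_dvd _ _ fun p _ => ?_
      split_ifs <;> norm_num
    exact this
  choose k hk using hval
  refine ⟨∑ W ∈ T.powerset, ((-1 : ℤ) ^ (W ∩ C).card * k W) • θ T W, ?_⟩
  unfold LL
  simp only [Finset.smul_sum]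
  rw [Finset.sum_comm]
  refine Finset.sum_congr rfl fun W _ => ?_
  simp only [← mul_smul]
  rw [← Finset.sum_smul]
  congr 1
  rw [hprod, hk]
  ring

theorem step (θ : Finset ℕ → Finset ℕ → PowerSeries Z2) {T S φ : Finset ℕ} {q : ℕ}
    (hq : q ∉ T) (hS : S ⊆ T) (hφ : φ ⊆ T) {a : ℤ} {e : PowerSeries Z2}
    (h : ∀ U ⊆ T, θ (insert q T) U + θ (insert q T) (insert q U) =
      a • θ T U - e * θ T (symmDiff U φ)) :
    LL θ (insert q T) S = ((a : PowerSeries Z2) - (-1) ^ (φ ∩ S).card * e) * LL θ T S := by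
  classical
  have hqS : q ∉ S := fun h => hq (hS h)
  have e1 : LL θ (insert q T) S = ∑ U ∈ T.powerset, ((-1 : ℤ) ^ (U ∩ S).card) •
      (a • θ T U - e * θ T (symmDiff U φ)) := by
    unfold LL
    rw [Finset.sum_powerset_insert hq, ← Finset.sum_add_distrib]
    refine Finset.sum_congr rfl fun U hU => ?_
    rw [← h U (Finset.mem_powerset.1 hU), smul_add, Finset.insert_inter_of_notMem hqS]
  have e2 : ∑ U ∈ T.powerset, ((-1 : ℤ) ^ (U ∩ S).card) • θ T (symmDiff U φ) =
      ((-1 : ℤ) ^ (φ ∩ S).card) • LL θ T S := by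
    unfold LL
    rw [Finset.smul_sum]
    have hsub : ∀ U : Finset ℕ, U ⊆ T → symmDiff U φ ⊆ T := by
      intro U hU p hp
      rw [Finset.mem_symmDiff] at hp
      rcases hp with hp | hp
      · exact hU hp.1
      · exact hφ hp.1
    refine Finset.sum_bij (fun U _ => symmDiff U φ) ?_ ?_ ?_ ?_
    · intro U hU
      exact Finset.mem_powerset.2 (hsub U (Finset.mem_powerset.1 hU))
    · intro U _ V _ h
      exact symmDiff_left_injective φ h
    · intro V hV
      refine ⟨symmDiff V φ, Finset.mem_powerset.2 (hsub V (Finset.mem_powerset.1 hV)), ?_⟩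
      exact symmDiff_symmDiff_cancel_right φ V
    · intro U _
      rw [← mul_smul]
      congr 1
      -- the signs
      have hsg : ∀ W : Finset ℕ, (-1 : ℤ) ^ (W ∩ S).card = ∏ p ∈ S, if p ∈ W then -1 else 1 := by
        intro W
        rw [Finset.prod_ite, Finset.prod_const_one, mul_one, Finset.prod_const]
        congr 2
        ext p
        rw [Finset.mem_filter, Finset.mem_inter, and_comm]
      rw [hsg, hsg, hsg, ← Finset.prod_mul_distrib]
      refine Finset.prod_congr rfl fun p _ => ?_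
      by_cases h1 : p ∈ U <;> by_cases h2 : p ∈ φ <;> simp [Finset.mem_symmDiff, h1, h2]
  rw [e1]
  simp only [smul_sub]
  rw [Finset.sum_sub_distrib]
  have e3 : ∑ U ∈ T.powerset, ((-1 : ℤ) ^ (U ∩ S).card) • a • θ T U = a • LL θ T S := by
    unfold LL
    rw [Finset.smul_sum]
    exact Finset.sum_congr rfl fun U _ => smul_comm _ _ _
  have e4 : ∑ U ∈ T.powerset, ((-1 : ℤ) ^ (U ∩ S).card) • (e * θ T (symmDiff U φ)) =
      e * (((-1 : ℤ) ^ (φ ∩ S).card) • LL θ T S) := by
    rw [← e2, Finset.mul_sum]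
    exact Finset.sum_congr rfl fun U _ => (mul_smul_comm _ _ _).symm
  rw [e3, e4, zsmul_eq_mul, zsmul_eq_mul]
  push_cast
  ring

/-- the first `r + 1` coefficients -/
def trn (r : ℕ) : PowerSeries Z2 →+ (Fin (r + 1) → Z2) where
  toFun f := fun i => PowerSeries.coeff (i : ℕ) f
  map_zero' := by
    funext i
    simp
  map_add' f g := by
    funext i
    simp

theorem dv_iff {r : ℕ} (m : Fin (r + 1) → Z2) (k : ℕ) : Dv m k ↔ ∀ i, (2 : Z2) ^ k ∣ m i := by
  constructor
  · rintro ⟨n, hn, q, hq⟩ i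
    obtain ⟨s, rfl⟩ := hn
    have hcop : IsCoprime (2 * s + 1) ((2 : ℤ) ^ k) := by
      refine IsCoprime.pow_right ?_
      exact ⟨1, -s, by ring⟩
    obtain ⟨a, b, hab⟩ := hcop
    have h1 : ((2 * s + 1 : ℤ) : Z2) * m i = (2 : Z2) ^ k * q i := by
      have h2 := congrFun hq i
      rw [Pi.smul_apply, Pi.smul_apply, zsmul_eq_mul, zsmul_eq_mul] at h2
      rw [h2]
      push_cast
      rfl
    have h3 : ((a : ℤ) : Z2) * ((2 * s + 1 : ℤ) : Z2) + ((b : ℤ) : Z2) * (2 : Z2) ^ k = 1 := by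
      exact_mod_cast congrArg (fun x : ℤ => (x : Z2)) hab
    refine ⟨(a : Z2) * q i + (b : Z2) * m i, ?_⟩
    calc m i = (((a : ℤ) : Z2) * ((2 * s + 1 : ℤ) : Z2) + ((b : ℤ) : Z2) * (2 : Z2) ^ k) * m i := by
          rw [h3, one_mul]
      _ = (a : Z2) * (((2 * s + 1 : ℤ) : Z2) * m i) + (b : Z2) * (2 : Z2) ^ k * m i := by ring
      _ = (a : Z2) * ((2 : Z2) ^ k * q i) + (b : Z2) * (2 : Z2) ^ k * m i := by rw [h1]
      _ = 2 ^ k * ((a : Z2) * q i + (b : Z2) * m i) := by ring
  · intro h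
    choose q hq using h
    refine ⟨1, odd_one, q, ?_⟩
    funext i
    rw [one_smul, Pi.smul_apply, zsmul_eq_mul, hq i]
    push_cast
    rfl

theorem dv_mul {r : ℕ} (f g : PowerSeries Z2) {k : ℕ} (h : Dv (trn r f) k) :
    Dv (trn r (g * f)) k := by
  rw [dv_iff] at h ⊢
  intro i
  change (2 : Z2) ^ k ∣ PowerSeries.coeff (i : ℕ) (g * f)
  rw [PowerSeries.coeff_mul]
  refine Finset.dvd_sum fun x hx => ?_
  have hx' := Finset.HasAntidiagonal.mem_antidiagonal.1 hx
  have hlt : x.2 < r + 1 := by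
    have := i.2
    omega
  exact Dvd.dvd.mul_left (h ⟨x.2, hlt⟩) _

theorem dv_unit {r : ℕ} (f : PowerSeries Z2) {g : PowerSeries Z2} (hg : IsUnit g) (k : ℕ) :
    Dv (trn r (g * f)) k ↔ Dv (trn r f) k := by
  constructor
  · intro h
    obtain ⟨u, rfl⟩ := hg
    have h1 := dv_mul (r := r) ((u : PowerSeries Z2) * f) (↑u⁻¹ : PowerSeries Z2) h
    rwa [← mul_assoc, Units.inv_mul, one_mul] at h1
  · exact dv_mul f g

theorem not_unit_two : ¬ IsUnit (2 : Z2) := by
  have h := (PadicInt.prime_p (p := 2)).not_isUnit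
  exact_mod_cast h

theorem nd {r : ℕ} (m : Fin (r + 1) → Z2) (hm : m ≠ 0) : ∃ k, ¬ Dv m k := by
  obtain ⟨i, hi⟩ := Function.ne_iff.1 hm
  obtain ⟨n, hn⟩ := FiniteMultiplicity.of_not_isUnit not_unit_two hi
  exact ⟨n + 1, fun h => hn ((dv_iff m _).1 h i)⟩

theorem isUnit_factor {a : ℤ} (ha : Odd a) (s : ℤ) {e : PowerSeries Z2}
    (he : (2 : Z2) ∣ PowerSeries.constantCoeff e) :
    IsUnit ((a : PowerSeries Z2) - (s : PowerSeries Z2) * e) := by
  rw [PowerSeries.isUnit_iff_constantCoeff]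
  obtain ⟨c, hc⟩ := he
  obtain ⟨m, rfl⟩ := ha
  have e1 : PowerSeries.constantCoeff (((2 * m + 1 : ℤ) : PowerSeries Z2) -
      (s : PowerSeries Z2) * e) = 1 - (2 * ((s : Z2) * c - m)) := by
    rw [map_sub, map_mul, hc, map_intCast, map_intCast]
    push_cast
    ring
  rw [e1]
  rcases IsLocalRing.isUnit_or_isUnit_one_sub_self (2 * ((s : Z2) * c - m)) with h | h
  · exact absurd (isUnit_of_mul_isUnit_left h) not_unit_two
  · exact h

/-- the Lipschitz system of the truncated series -/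
theorem two_lip {P : Set ℕ} (θ : Finset ℕ → Finset ℕ → PowerSeries Z2) (r : ℕ)
    (hn : ∀ T : Finset ℕ, (T : Set ℕ) ⊆ P → ∀ q ∈ P, q ∉ T →
      ∃ (a : ℤ) (e : PowerSeries Z2) (φ : Finset ℕ), Odd a ∧
        (2 : Z2) ∣ PowerSeries.constantCoeff e ∧ φ ⊆ T ∧
        ∀ U ⊆ T, θ (insert q T) U + θ (insert q T) (insert q U) =
          a • θ T U - e * θ T (symmDiff U φ))
    {v : AbsoluteValue ℂ ℝ} (hv : Dyadic v) :
    HasLip v P 1 (fun S => sz v (trn r (LL θ S S))) := by
  classical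
  have hlev0 : ∀ R S : Finset ℕ, (R : Set ℕ) ⊆ P → (S : Set ℕ) ⊆ P → Disjoint R S → ∀ k,
      Dv (trn r (LL θ (R ∪ S) S)) k ↔ Dv (trn r (LL θ S S)) k := by
    intro R S
    induction R using Finset.induction_on with
    | empty =>
      intro _ _ _ k
      rw [Finset.empty_union]
    | insert q R hqR ih =>
      intro hR hS hd k
      have hRP : (R : Set ℕ) ⊆ P := fun x hx => hR (by
        rw [Finset.coe_insert]; exact Set.mem_insert_of_mem _ hx)
      have hqP : q ∈ P := hR (by rw [Finset.coe_insert]; exact Set.mem_insert _ _)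
      rw [Finset.disjoint_insert_left] at hd
      have hRS : ((R ∪ S : Finset ℕ) : Set ℕ) ⊆ P := by
        intro x hx
        rw [Finset.coe_union] at hx
        rcases hx with hx | hx
        · exact hRP hx
        · exact hS hx
      have hqn : q ∉ R ∪ S := by
        rw [Finset.mem_union]
        rintro (h | h)
        · exact hqR h
        · exact hd.1 h
      obtain ⟨a, e, φ, ha, he, hφ, hrel⟩ := hn (R ∪ S) hRS q hqP hqn
      have h1 := step θ hqn Finset.subset_union_right hφ hrel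
      rw [Finset.insert_union, h1]
      have hu : IsUnit ((a : PowerSeries Z2) - (-1) ^ (φ ∩ S).card * e) := by
        have h3 := isUnit_factor ha ((-1 : ℤ) ^ (φ ∩ S).card) he
        push_cast at h3
        exact h3
      rw [dv_unit _ hu]
      exact ih hRP hS hd.2 k
  refine gen_lip (M := Fin (r + 1) → Z2) ?_ ?_ (fun T S => trn r (LL θ T S)) ?_ ?_ hv
  · intro m h
    rcases smul_eq_zero.1 h with h | h
    · norm_num at h
    · exact h
  · intro m h
    refine nd m fun h0 => h 1 one_pos ?_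
    rw [h0, smul_zero]
  · intro T hT C U hC hU hd
    obtain ⟨q, hq⟩ := cube (M := PowerSeries Z2) θ (T := T) hd
    refine ⟨trn r q, ?_⟩
    rw [← map_zsmul, ← hq, map_sum]
    exact Finset.sum_congr rfl fun S _ => (map_zsmul _ _ _).symm
  · intro T hT S hS k
    have h := hlev0 (T \ S) S (fun x hx => hT (by
      rw [Finset.coe_sdiff] at hx; exact hx.1)) (fun x hx => hT (hS hx)) Finset.sdiff_disjoint k
    rwa [Finset.sdiff_union_of_subset hS] at h

end

end Pool.Agent.Lib.MP_72b84e_nt.Two
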