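import Pool.Agent.Lib.MP_72b84e_nt.Two.Defs

/-! MP_72b84e_nt: modular symbols of a q-series, the Hecke relation. -/

set_option autoImplicit false

open Complex MeasureTheory Set

namespace Pool.Agent.Lib.MP_72b84e_nt.Two

noncomputable section

/-- The sum `∑ a(n) e^(2 π i n (x + i y))`. -/
def qser (a : ℕ → ℤ) (x y : ℝ) : ℂ :=
  ∑' n : ℕ, (a n : ℂ) * exp (2 * Real.pi * I * (n * (x + y * I)))

/-- The integral of the q-series from `x` to `i ∞`. -/
def qint (a : ℕ → ℤ) (x : ℝ) : ℂ := ∫ y in Ioi (0 : ℝ), qser a x y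

/-- The symbols `ms` are those of the q-series, `ms x = Re (I x) / Ω + Im (I x) / Ω'`. -/
def IsSym (a : ℕ → ℤ) (ms : ℚ → ℤ) : Prop :=
  (∀ y : ℝ, 0 < y → Summable fun n : ℕ => |(a n : ℝ)| * Real.exp (-(2 * Real.pi * (n * y)))) ∧
  (∀ x : ℚ, IntegrableOn (qser a x) (Ioi 0)) ∧
  ∃ Ω Ω' : ℝ, Ω ≠ 0 ∧ Ω' ≠ 0 ∧ ∀ x : ℚ, (ms x : ℝ) = (qint a x).re / Ω + (qint a x).im / Ω'

theorem norm_term (a : ℕ → ℤ) (n : ℕ) (x y : ℝ) :
    ‖(a n : ℂ) * exp (2 * Real.pi * I * (n * (x + y * I)))‖ =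
      |(a n : ℝ)| * Real.exp (-(2 * Real.pi * (n * y))) := by
  rw [norm_mul, Complex.norm_exp, Complex.norm_intCast]
  congr 2
  simp [Complex.mul_re, Complex.mul_im, Complex.add_re, Complex.add_im]

theorem summable_term {a : ℕ → ℤ}
    (h : ∀ y : ℝ, 0 < y → Summable fun n : ℕ => |(a n : ℝ)| *
      Real.exp (-(2 * Real.pi * (n * y)))) (x : ℝ) {y : ℝ} (hy : 0 < y) :
    Summable fun n : ℕ => (a n : ℂ) * exp (2 * Real.pi * I * (n * (x + y * I))) := by
  refine Summable.of_norm ?_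
  simp only [norm_term]
  exact h y hy

theorem sum_root (q : ℕ) (hq : 0 < q) (m : ℕ) :
    ∑ j ∈ Finset.range q, exp (2 * Real.pi * I * (m * ((j : ℂ) / q))) =
      if q ∣ m then (q : ℂ) else 0 := by
  have hq0 : (q : ℂ) ≠ 0 := Nat.cast_ne_zero.2 hq.ne'
  have h1 : ∀ j : ℕ, exp (2 * Real.pi * I * (m * ((j : ℂ) / q))) =
      exp (2 * Real.pi * I * (m / q)) ^ j := fun j => by
    rw [← Complex.exp_nat_mul]
    congr 1
    ring
  simp only [h1]
  split_ifs with h
  · obtain ⟨k, rfl⟩ := h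
    have h2 : exp (2 * Real.pi * I * (((q * k : ℕ) : ℂ) / q)) = 1 := by
      rw [Complex.exp_eq_one_iff]
      refine ⟨k, ?_⟩
      push_cast
      field_simp
    simp only [h2, one_pow, Finset.sum_const, Finset.card_range, nsmul_eq_mul, mul_one]
  · have h2 : exp (2 * Real.pi * I * ((m : ℂ) / q)) ≠ 1 := by
      rw [Ne, Complex.exp_eq_one_iff]
      rintro ⟨k, hk⟩
      apply h
      have h3 : (m : ℂ) = k * q := by
        have h4 : (2 * Real.pi * I : ℂ) ≠ 0 := Complex.two_pi_I_ne_zero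
        have h5 : (2 * Real.pi * I : ℂ) * ((m : ℂ) / q) = (2 * Real.pi * I) * k := by
          rw [hk]
          ring
        have h6 := mul_left_cancel₀ h4 h5
        rw [← h6]
        field_simp
      have h4 : (m : ℤ) = k * q := by exact_mod_cast h3
      have h5 : (q : ℤ) ∣ m := ⟨k, by rw [h4]; ring⟩
      exact Int.natCast_dvd_natCast.1 h5
    rw [geom_sum_eq h2]
    have h3 : exp (2 * Real.pi * I * ((m : ℂ) / q)) ^ q = 1 := by
      rw [← Complex.exp_nat_mul, Complex.exp_eq_one_iff]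
      refine ⟨m, ?_⟩
      push_cast
      field_simp
    rw [h3, sub_self, zero_div]

/-- The sum over the translates. -/
theorem sum_trans {a : ℕ → ℤ}
    (h : ∀ y : ℝ, 0 < y → Summable fun n : ℕ => |(a n : ℝ)| *
      Real.exp (-(2 * Real.pi * (n * y)))) (q : ℕ) (hq : 0 < q) (x : ℝ) {y : ℝ} (hy : 0 < y) :
    ∑ j ∈ Finset.range q, qser a ((x + j) / q) ((q : ℝ)⁻¹ * y) =
      q * ∑' n : ℕ, (a (q * n) : ℂ) * exp (2 * Real.pi * I * (n * (x + y * I))) := by
  have hq0 : (q : ℂ) ≠ 0 := Nat.cast_ne_zero.2 hq.ne'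
  have hqr : (0 : ℝ) < q := Nat.cast_pos.2 hq
  have hy' : 0 < (q : ℝ)⁻¹ * y := by positivity
  unfold qser
  rw [← Summable.tsum_finsetSum fun j _ => summable_term h _ hy']
  have h1 : ∀ m : ℕ, ∑ j ∈ Finset.range q, (a m : ℂ) * exp (2 * Real.pi * I *
      (m * ((((x + j) / q : ℝ) : ℂ) + (((q : ℝ)⁻¹ * y : ℝ) : ℂ) * I))) =
      (a m : ℂ) * exp (2 * Real.pi * I * (m * ((x + y * I) / q))) *
        (if q ∣ m then (q : ℂ) else 0) := fun m => by
    rw [← sum_root q hq m, Finset.mul_sum]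
    refine Finset.sum_congr rfl fun j _ => ?_
    rw [mul_assoc (a m : ℂ), ← Complex.exp_add]
    congr 2
    push_cast
    field_simp
    ring
  simp only [h1]
  rw [← tsum_mul_left]
  have hinj : Function.Injective (fun n : ℕ => q * n) := fun m n hmn =>
    Nat.eq_of_mul_eq_mul_left hq hmn
  rw [← hinj.tsum_eq (f := fun m : ℕ => (a m : ℂ) *
    exp (2 * Real.pi * I * (m * ((x + y * I) / q))) * (if q ∣ m then (q : ℂ) else 0))]
  · refine tsum_congr fun n => ?_
    rw [if_pos (Dvd.intro n rfl)]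
    have h2 : (2 * Real.pi * I * (((q * n : ℕ) : ℂ) * ((x + y * I) / q)) : ℂ) =
        2 * Real.pi * I * (n * (x + y * I)) := by
      push_cast
      field_simp
    rw [h2]
    ring
  · intro m hm
    by_cases hd : q ∣ m
    · obtain ⟨k, rfl⟩ := hd
      exact ⟨k, rfl⟩
    · rw [Function.mem_support, if_neg hd, mul_zero] at hm
      exact absurd rfl hm

/-- The series at `q z`. -/
theorem ser_mul (a : ℕ → ℤ) (q : ℕ) (hq : 0 < q) (x y : ℝ) :
    qser a (q * x) (q * y) =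
      ∑' n : ℕ, ((if q ∣ n then a (n / q) else 0 : ℤ) : ℂ) *
        exp (2 * Real.pi * I * (n * (x + y * I))) := by
  have hinj : Function.Injective (fun n : ℕ => q * n) := fun m n hmn =>
    Nat.eq_of_mul_eq_mul_left hq hmn
  rw [← hinj.tsum_eq (f := fun n : ℕ => ((if q ∣ n then a (n / q) else 0 : ℤ) : ℂ) *
        exp (2 * Real.pi * I * (n * (x + y * I))))]
  · unfold qser
    refine tsum_congr fun n => ?_
    rw [if_pos (Dvd.intro n rfl), Nat.mul_div_cancel_left n hq]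
    congr 2
    push_cast
    ring
  · intro m hm
    by_cases hd : q ∣ m
    · obtain ⟨k, rfl⟩ := hd
      exact ⟨k, rfl⟩
    · rw [Function.mem_support, if_neg hd, Int.cast_zero, zero_mul] at hm
      exact absurd rfl hm

/-- The Hecke relation for the q-series. -/
theorem ser_hecke {a : ℕ → ℤ}
    (h : ∀ y : ℝ, 0 < y → Summable fun n : ℕ => |(a n : ℝ)| *
      Real.exp (-(2 * Real.pi * (n * y)))) (q : ℕ) (hq : 0 < q)
    (hrel : ∀ n, a (q * n) + q * (if q ∣ n then a (n / q) else 0) = a q * a n)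
    (x : ℝ) {y : ℝ} (hy : 0 < y) :
    (q : ℂ)⁻¹ * ∑ j ∈ Finset.range q, qser a ((x + j) / q) ((q : ℝ)⁻¹ * y) +
      q * qser a (q * x) (q * y) = a q * qser a x y := by
  have hq0 : (q : ℂ) ≠ 0 := Nat.cast_ne_zero.2 hq.ne'
  have hqr : (0 : ℝ) < q := Nat.cast_pos.2 hq
  rw [sum_trans h q hq x hy, ser_mul a q hq x y, inv_mul_cancel_left₀ hq0, ← tsum_mul_left,
    qser, ← tsum_mul_left]
  have hs3 : Summable fun n : ℕ => (a q : ℂ) *
      ((a n : ℂ) * exp (2 * Real.pi * I * (n * (x + y * I)))) :=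
    (summable_term h x hy).mul_left _
  have hs2 : Summable fun n : ℕ => (q : ℂ) * (((if q ∣ n then a (n / q) else 0 : ℤ) : ℂ) *
        exp (2 * Real.pi * I * (n * (x + y * I)))) := by
    refine Summable.mul_left _ ?_
    have hinj : Function.Injective (fun n : ℕ => q * n) := fun m n hmn =>
      Nat.eq_of_mul_eq_mul_left hq hmn
    refine (hinj.summable_iff fun m hm => ?_).1 ?_
    · have hd : ¬ q ∣ m := fun hd => by
        obtain ⟨k, rfl⟩ := hd
        exact hm ⟨k, rfl⟩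
      rw [if_neg hd, Int.cast_zero, zero_mul]
    · have h1 := summable_term h (q * x) (mul_pos hqr hy)
      refine h1.congr fun n => ?_
      simp only [Function.comp]
      rw [if_pos (Dvd.intro n rfl), Nat.mul_div_cancel_left n hq]
      congr 2
      push_cast
      ring
  have hs1 : Summable fun n : ℕ => (a (q * n) : ℂ) *
      exp (2 * Real.pi * I * (n * (x + y * I))) := by
    refine (hs3.sub hs2).congr fun n => ?_
    have h1 : (a (q * n) : ℂ) = a q * a n - q * ((if q ∣ n then a (n / q) else 0 : ℤ) : ℂ) := by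
      have h2 := hrel n
      have h3 : (a (q * n) : ℤ) = a q * a n - q * (if q ∣ n then a (n / q) else 0) := by
        linarith
      rw [h3]
      push_cast
      ring
    rw [h1]
    ring
  rw [← hs1.tsum_add hs2]
  refine tsum_congr fun n => ?_
  have h1 : ((a (q * n) + q * (if q ∣ n then a (n / q) else 0) : ℤ) : ℂ) =
      ((a q * a n : ℤ) : ℂ) := by rw [hrel n]
  push_cast at h1 ⊢
  linear_combination (exp (2 * Real.pi * I * (n * (x + y * I)))) * h1

/-- The Hecke relation for the integrals. -/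
theorem int_hecke {a : ℕ → ℤ}
    (h : ∀ y : ℝ, 0 < y → Summable fun n : ℕ => |(a n : ℝ)| *
      Real.exp (-(2 * Real.pi * (n * y))))
    (hint : ∀ x : ℚ, IntegrableOn (qser a x) (Ioi 0)) (q : ℕ) (hq : 0 < q)
    (hrel : ∀ n, a (q * n) + q * (if q ∣ n then a (n / q) else 0) = a q * a n) (x : ℚ) :
    ∑ j ∈ Finset.range q, qint a (((x + j) / q : ℚ) : ℝ) + qint a ((q * x : ℚ) : ℝ) =
      a q * qint a x := by
  have hqr : (0 : ℝ) < q := Nat.cast_pos.2 hq
  have hqi : (0 : ℝ) < (q : ℝ)⁻¹ := inv_pos.2 hqr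
  have hq0 : (q : ℂ) ≠ 0 := Nat.cast_ne_zero.2 hq.ne'
  have h1 : ∀ j : ℕ, ∫ y in Ioi (0 : ℝ), qser a (((x : ℝ) + j) / q) ((q : ℝ)⁻¹ * y) =
      q * qint a (((x + j) / q : ℚ) : ℝ) := fun j => by
    have h2 := integral_comp_mul_left_Ioi (qser a (((x : ℝ) + j) / q)) 0 hqi
    rw [mul_zero, inv_inv] at h2
    rw [h2, qint]
    push_cast
    simp
  have h2 : ∫ y in Ioi (0 : ℝ), qser a ((q : ℝ) * x) ((q : ℝ) * y) =
      (q : ℂ)⁻¹ * qint a ((q * x : ℚ) : ℝ) := by
    have h3 := integral_comp_mul_left_Ioi (qser a ((q : ℝ) * x)) 0 hqr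
    rw [mul_zero] at h3
    rw [h3, qint]
    push_cast
    simp
  have hi1 : ∀ j : ℕ, IntegrableOn (fun y => qser a (((x : ℝ) + j) / q) ((q : ℝ)⁻¹ * y))
      (Ioi 0) := fun j => by
    have h3 := (integrableOn_Ioi_comp_mul_left_iff (qser a (((x : ℝ) + j) / q)) 0 hqi).2
    rw [mul_zero] at h3
    refine h3 ?_
    have h4 := hint ((x + j) / q)
    push_cast at h4
    exact h4
  have hi2 : IntegrableOn (fun y => qser a ((q : ℝ) * x) ((q : ℝ) * y)) (Ioi 0) := by
    have h3 := (integrableOn_Ioi_comp_mul_left_iff (qser a ((q : ℝ) * x)) 0 hqr).2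
    rw [mul_zero] at h3
    refine h3 ?_
    have h4 := hint (q * x)
    push_cast at h4
    exact h4
  have h3 : ∫ y in Ioi (0 : ℝ), ((q : ℂ)⁻¹ * ∑ j ∈ Finset.range q,
      qser a (((x : ℝ) + j) / q) ((q : ℝ)⁻¹ * y) +
      q * qser a ((q : ℝ) * x) ((q : ℝ) * y)) = ∫ y in Ioi (0 : ℝ), a q * qser a x y :=
    setIntegral_congr_fun measurableSet_Ioi fun y hy => ser_hecke h q hq hrel x hy
  rw [integral_add ((integrable_finsetSum _ fun j _ => hi1 j).const_mul _)
    (hi2.const_mul _), integral_const_mul, integral_const_mul, integral_const_mul,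
    integral_finsetSum _ fun j _ => hi1 j, h2] at h3
  simp only [h1] at h3
  rw [← Finset.mul_sum, inv_mul_cancel_left₀ hq0, mul_inv_cancel_left₀ hq0] at h3
  exact h3

theorem qser_period (a : ℕ → ℤ) (x y : ℝ) : qser a (x + 1) y = qser a x y := by
  unfold qser
  refine tsum_congr fun n => ?_
  have h1 : (2 * Real.pi * I * (n * (((x + 1 : ℝ) : ℂ) + y * I)) : ℂ) =
      2 * Real.pi * I * (n * (x + y * I)) + n * (2 * Real.pi * I) := by
    push_cast
    ring
  rw [h1, Complex.exp_add, Complex.exp_nat_mul_two_pi_mul_I, mul_one]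

theorem IsSym.period {a : ℕ → ℤ} {ms : ℚ → ℤ} (h : IsSym a ms) (x : ℚ) :
    ms (x + 1) = ms x := by
  obtain ⟨-, -, Ω, Ω', -, -, h⟩ := h
  have h1 : qint a ((x + 1 : ℚ) : ℝ) = qint a x := by
    unfold qint
    push_cast
    simp only [qser_period]
  have h2 := h (x + 1)
  rw [h1, ← h x] at h2
  exact_mod_cast h2

/-- The Hecke relation for the symbols. -/
theorem IsSym.hecke {a : ℕ → ℤ} {ms : ℚ → ℤ} (h : IsSym a ms) (q : ℕ) (hq : 0 < q)
    (hrel : ∀ n, a (q * n) + q * (if q ∣ n then a (n / q) else 0) = a q * a n) :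
    Hecke ms q (a q) := by
  obtain ⟨h1, h2, Ω, Ω', hΩ, hΩ', h3⟩ := h
  intro x
  have h4 := int_hecke h1 h2 q hq hrel x
  have hre := congrArg Complex.re h4
  have him := congrArg Complex.im h4
  rw [Complex.add_re, Complex.re_sum, Complex.mul_re, Complex.intCast_re, Complex.intCast_im,
    zero_mul, sub_zero] at hre
  rw [Complex.add_im, Complex.im_sum, Complex.mul_im, Complex.intCast_re, Complex.intCast_im,
    zero_mul, add_zero] at him
  have h5 : ((∑ j ∈ Finset.range q, ms ((x + j) / q) + ms (q * x) : ℤ) : ℝ) =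
      ((a q * ms x : ℤ) : ℝ) := by
    push_cast
    rw [h3 x, h3 (q * x), Finset.sum_congr rfl fun (j : ℕ) _ => h3 ((x + j) / q),
      Finset.sum_add_distrib, ← Finset.sum_div, ← Finset.sum_div]
    have h6 : (∑ j ∈ Finset.range q, (qint a (((x + j) / q : ℚ) : ℝ)).re) / Ω +
        (qint a ((q * x : ℚ) : ℝ)).re / Ω = a q * (qint a x).re / Ω := by
      rw [← add_div, hre]
    have h7 : (∑ j ∈ Finset.range q, (qint a (((x + j) / q : ℚ) : ℝ)).im) / Ω' +
        (qint a ((q * x : ℚ) : ℝ)).im / Ω' = a q * (qint a x).im / Ω' := by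
      rw [← add_div, him]
    linear_combination h6 + h7
  exact_mod_cast h5

end

end Pool.Agent.Lib.MP_72b84e_nt.Two
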